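import Mathlib

attribute [-instance] AddMonoidAlgebra.smulZeroClass SemigroupAction.toSMul
  Module.Flat.instOfIsDedekindDomainOfIsTorsionFree ContinuousSemilinearMapClass.toSemilinearMapClass
  isArtinian_of_fg_of_artinian' MonTypeEquivalenceMon.monMonoid RKHS.instFunLike
  instCharZeroOfIsSemireal BoundedOrder.toOrderBot BoundedOrder.toOrderTop littleWedderburn
  AddMonoidAlgebra.distribSMul IsAffineAddMonoid.mk CommMonTypeEquivalenceCommMon.commMonCommMonoid
  instNonUnitalAlgHomClassOfNonUnitalAlgEquivClass CoalgHomClass.toSemilinearMapClass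
  NormedAlgebra.toAlgebra NormedCommRing.toCommRing SeminormedCommRing.toCommRing CharP.pi
  FloorSemiring.instCharZero OreLocalization.instAddCommMonoidOreLocalization
  GeneralizedBooleanAlgebra.toOrderBot BialgHomClass.toAlgHomClass RingHomClass.toLinearMapClassNNRat
  LocalizedModule.instCommSemiring SemilinearIsometryClass.toSemilinearMapClass
  FiniteField.instGrindPowIdentity IsCancelAdd.toIsLeftCancelAdd CompletePartialOrder.toPartialOrder
  AddMonoidAlgebra.distribMulAction IsSemisimpleRing.isSemisimpleModule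
  NonUnitalNonAssocRing.toAddCommGroup RCLike.charZero_rclike RingHomClass.toLinearMapClassRat
  BialgHomClass.toMonoidHomClass NumberField.to_charZero
  NonUnitalAlgHomClass.instSemilinearMapClassOfNonUnitalAlgSemiHomClassToMonoidHomRingHom
  NonUnitalAlgHomClass.toNonUnitalRingHomClass NormedField.toField
  Group.IsPerfect.subsingleton_of_isMulCommutative GeneralizedCoheytingAlgebra.toLattice
  AddQuantale.instAddLeftMono Module.FaithfullyFlat.toFlat Bialgebra.toAlgebra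
  ConditionallyCompleteLinearOrderBot.toOrderBot UniqueFactorizationMonoid.instIsMulTorsionFree
  FirstOrder.Language.instDecidableEqRelations HeytingAlgebra.toOrderBot
  GeneralizedCoheytingAlgebra.toOrderBot CoheytingAlgebra.toOrderTop
  GeneralizedHeytingAlgebra.toOrderTop Std.instLawfulBEqOfLawfulOrderBEqOfIsPartialOrder
  FunLike.toDecidableEq IsStrictOrderedRing.toCharZero AlgHomClass.linearMapClass
  KleeneAlgebra.toIdemSemiring Algebra.Generators.instRing
  FirstOrder.Language.instDecidableEqFunctions MulCharClass.toMonoidHomClass Nontrivial.to_nonempty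
  AddGroup.addLeftReflectLE_of_addLeftMono LinearOrderedAddCommGroupWithTop.toOrderTop
  MulDistribMulActionSemiHomClass.toMonoidHomClass ValuationClass.toMonoidWithZeroHomClass
  IdemSemiring.toOrderBot ConditionallyCompleteLinearOrderBot.toConditionallyCompleteLinearOrder
  Unique.instSubsingleton CompletePartialOrder.toOrderBot Zero.instNonempty
  MulSemiringAction.toDistribMulAction Ideal.instIsTwoSided ContDiffMapSupportedInClass.toDFunLike
  IsStrictOrderedRing.noZeroDivisors GrpTypeEquivalenceGrp.grpGroup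
  LinearOrderedCommMonoidWithZero.toOrderBot IsCancelAdd.toIsRightCancelAdd
  LinearOrderedAddCommMonoidWithTop.toOrderTop NormedRing.toRing TestFunctionClass.toDFunLike
  SemilinearEquivClass.instSemilinearMapClass instCoeHTCOfCoeHeadOfCoeOTC CharP.pi'
  MulSemiringActionSemiHomClass.toDistribMulActionSemiHomClass AddQuantale.instAddRightMono
  CentroidHomClass.toAddMonoidHomClass LieRing.toAddCommGroup IsFormallyReal.instIsReduced
  RingEquivClass.toNonUnitalRingHomClass EuclideanDomain.toCommRing BooleanRing.toRing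
  LinearOrderedCommMonoidWithZero.toLinearOrder Std.instDecidableLE
  GeneralizedHeytingAlgebra.toLattice AddGroup.addRightReflectLE_of_addRightMono
  SemilatticeSup.toPartialOrder OmegaCompletePartialOrder.toPartialOrder
  LinearOrderedAddCommMonoidWithTop.toLinearOrder LieAdmissibleRing.toNonUnitalNonAssocRing
  NormedDivisionRing.toDivisionRing NeZero.of_gt'

/-! Regular sequences by hand: depth drops by at most one, generic regular sequences, Wiebe's lemma. -/

namespace Pool.Agent.H76m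

open Ideal Matrix

variable {S : Type*} [CommRing S]

def NZ (I : Ideal S) (z : S) : Prop := ∀ a, z * a ∈ I → a ∈ I

theorem ms {I : Ideal S} {a y : S} : a ∈ I ⊔ span {y} ↔ ∃ b, a - y * b ∈ I := by
  rw [sup_comm, mem_span_singleton_sup]
  constructor
  · rintro ⟨c, b, hb, rfl⟩
    exact ⟨c, by convert hb using 1; ring⟩
  · rintro ⟨b, hb⟩
    exact ⟨b, _, hb, by ring⟩

theorem swap {I : Ideal S} {y w : S} (h1 : NZ I y) (h2 : NZ (I ⊔ span {y}) w) :
    NZ (I ⊔ span {w}) y := by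
  intro a ha
  obtain ⟨b, hb⟩ := ms.1 ha
  obtain ⟨c, hc⟩ := ms.1 (h2 b (ms.2 ⟨a, by convert I.neg_mem hb using 1; ring⟩))
  refine ms.2 ⟨c, h1 _ ?_⟩
  convert I.add_mem hb (I.mul_mem_left w hc) using 1; ring

theorem AS [IsNoetherianRing S] (I : Ideal S) : ∃ P : Set (Ideal S), P.Finite ∧
    (∀ q ∈ P, q.IsPrime ∧ I ≤ q ∧ ∃ a ∉ I, ∀ w ∈ q, w * a ∈ I) ∧
    ∀ z, (∀ q ∈ P, z ∉ q) → NZ I z := by
  refine ⟨associatedPrimes S (S ⧸ I), associatedPrimes.finite _ _, ?_, ?_⟩
  · intro q hq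
    obtain ⟨hp, x, rfl⟩ := isAssociatedPrime_iff.1 hq
    obtain ⟨a, rfl⟩ := Ideal.Quotient.mk_surjective x
    have key : ∀ w, w ∈ Submodule.colon (⊥ : Submodule S (S ⧸ I)) {Ideal.Quotient.mk I a} ↔
        w * a ∈ I := by
      intro w
      rw [Submodule.mem_colon_singleton, Submodule.mem_bot, ← Ideal.Quotient.eq_zero_iff_mem,
        map_mul]
      rfl
    refine ⟨hp, fun w hw => (key w).2 (I.mul_mem_right _ hw), a, fun ha => hp.ne_top ?_,
      fun w hw => (key w).1 hw⟩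
    exact (eq_top_iff_one _).2 ((key 1).2 (by simpa using ha))
  · intro z hz a ha
    by_contra hn
    have : z ∈ ⋃ p ∈ associatedPrimes S (S ⧸ I), (p : Set S) := by
      rw [biUnion_associatedPrimes_eq_zero_divisors]
      refine ⟨Ideal.Quotient.mk I a, by rwa [Ne, Ideal.Quotient.eq_zero_iff_mem], ?_⟩
      rw [← Ideal.Quotient.eq_zero_iff_mem, map_mul] at ha
      exact ha
    simp only [Set.mem_iUnion] at this
    obtain ⟨q, hq, h⟩ := this
    exact hz q hq h

theorem avoid {P : Set (Ideal S)} (hP : P.Finite) (hp : ∀ q ∈ P, q.IsPrime) {p : Ideal S}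
    (h : ∀ q ∈ P, ¬ p ≤ q) : ∃ w ∈ p, ∀ q ∈ P, w ∉ q := by
  by_contra hn
  push Not at hn
  obtain ⟨q, hq, hle⟩ := (p.subset_union_prime_finite hP (f := id) 0 0
    fun q hq _ _ => hp q hq).1 fun w hw => by simpa only [id_eq, Set.mem_iUnion, SetLike.mem_coe, exists_prop] using hn w hw
  exact h q hq hle

def G (p : Ideal S) : ℕ → Ideal S → Prop
  | 0, _ => True
  | n + 1, I => ∃ z ∈ p, NZ I z ∧ G p n (I ⊔ span {z})

theorem G_step [IsNoetherianRing S] (p : Ideal S) : ∀ (n : ℕ) (I : Ideal S) (y : S),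
    G p (n + 1) I → NZ I y → G p n (I ⊔ span {y}) := by
  intro n
  induction n with
  | zero => intros; trivial
  | succ n ih =>
    rintro I y ⟨z, hz, hnz, hG⟩ hy
    obtain ⟨P1, f1, a1, b1⟩ := AS (I ⊔ span {y})
    obtain ⟨P2, f2, a2, b2⟩ := AS (I ⊔ span {z})
    obtain ⟨z2, hz2, hnz2, -⟩ := id hG
    obtain ⟨w, hw, hav⟩ := avoid (f1.union f2) (p := p)
      (by rintro q (h | h); exacts [(a1 q h).1, (a2 q h).1]) (by
      rintro q (h | h) hle
      · obtain ⟨-, -, a, ha, hq⟩ := a1 q h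
        obtain ⟨b, hb⟩ := ms.1 (hq z (hle hz))
        obtain ⟨c, hc⟩ := ms.1 (hq z2 (hle hz2))
        have : z2 * b - z * c ∈ I := hy _ (by
          convert I.sub_mem (I.mul_mem_left z hc) (I.mul_mem_left z2 hb) using 1; ring)
        obtain ⟨d, hd⟩ := ms.1 (hnz2 b (ms.2 ⟨c, this⟩))
        refine ha (ms.2 ⟨d, hnz _ ?_⟩)
        convert I.add_mem hb (I.mul_mem_left y hd) using 1; ring
      · obtain ⟨-, -, a, ha, hq⟩ := a2 q h
        exact ha (hnz2 a (hq z2 (hle hz2))))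
    have w1 := b1 w fun q hq => hav q (Or.inl hq)
    have w2 := b2 w fun q hq => hav q (Or.inr hq)
    refine ⟨w, hw, w1, ?_⟩
    rw [sup_right_comm]
    refine ih _ _ ⟨z, hz, swap hnz w2, ?_⟩ (swap hy w1)
    rw [sup_right_comm]
    exact ih _ _ hG w2

variable {ι : Type*}

def SP (I : Ideal S) (y : ι → S) (l : List ι) : Ideal S := I ⊔ span (y '' {k | k ∈ l})

theorem SP_le {I J : Ideal S} {y : ι → S} {l : List ι} :
    SP I y l ≤ J ↔ I ≤ J ∧ ∀ k ∈ l, y k ∈ J := by
  simp only [SP, sup_le_iff, span_le, Set.subset_def, Set.mem_image, Set.mem_ofPred_eq, SetLike.mem_coe, forall_exists_index, and_imp, forall_apply_eq_imp_iff₂]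

theorem le_SP {I : Ideal S} {y : ι → S} {l : List ι} : I ≤ SP I y l := le_sup_left

theorem mem_SP {I : Ideal S} {y : ι → S} {l : List ι} {k : ι} (h : k ∈ l) : y k ∈ SP I y l :=
  (SP_le.1 le_rfl).2 k h

theorem SP_nil (I : Ideal S) (y : ι → S) : SP I y [] = I := by simp only [SP, List.not_mem_nil, Set.ofPred_false, Set.image_empty, Submodule.span_empty, bot_le, sup_of_le_left]

theorem SP_cons (I : Ideal S) (y : ι → S) (k : ι) (l : List ι) :
    SP I y (k :: l) = SP I y l ⊔ span {y k} := by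
  refine eq_of_forall_ge_iff fun J => ?_
  simp only [SP_le, List.mem_cons, forall_eq_or_imp, sup_le_iff, Submodule.span_singleton_le_iff_mem]; tauto

theorem SP_sup (I J : Ideal S) (y : ι → S) (l : List ι) : SP (I ⊔ J) y l = SP I y l ⊔ J :=
  sup_right_comm _ _ _

theorem SP_congr {I : Ideal S} {y y' : ι → S} {l : List ι} (h : ∀ k ∈ l, y k = y' k) :
    SP I y l = SP I y' l := by
  unfold SP; rw [Set.image_congr (s := {k | k ∈ l}) h]

def RegR (I : Ideal S) (y : ι → S) : List ι → Prop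
  | [] => True
  | k :: l => RegR I y l ∧ NZ (SP I y l) (y k)

theorem RegR_congr {I : Ideal S} {y y' : ι → S} : ∀ {l : List ι}, (∀ k ∈ l, y k = y' k) →
    RegR I y l → RegR I y' l
  | [], _, _ => trivial
  | k :: l, h, ⟨h1, h2⟩ => by
    have h' : ∀ j ∈ l, y j = y' j := fun j hj => h j (List.mem_cons_of_mem _ hj)
    exact ⟨RegR_congr h' h1, by rwa [← SP_congr h', ← h k List.mem_cons_self]⟩

theorem NZ_through {I : Ideal S} {y : ι → S} {w : S} (hw : NZ I w) : ∀ {l : List ι},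
    RegR (I ⊔ span {w}) y l → NZ (SP I y l) w
  | [], _ => by rwa [SP_nil]
  | k :: l, ⟨h1, h2⟩ => by
    rw [SP_sup] at h2
    rw [SP_cons]
    exact swap (NZ_through hw h1) h2

theorem AV [IsNoetherianRing S] {I A : Ideal S} {y : ι → S} : ∀ (l : List ι) (z : S),
    RegR I y l → NZ (SP I y l) z → z ∈ A → (∀ j ∈ l, y j ∈ A) →
    ∃ P : Set (Ideal S), P.Finite ∧ (∀ q ∈ P, I ≤ q ∧ ¬ A ≤ q) ∧
      ∀ w, (∀ q ∈ P, w ∉ q) → NZ (SP I y l) w ∧ RegR (I ⊔ span {w}) y l := by
  intro l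
  induction l with
  | nil =>
    intro z _ hz hA _
    obtain ⟨P, f, a, b⟩ := AS (SP I y [])
    refine ⟨P, f, fun q hq => ?_, fun w hw => ⟨b w hw, trivial⟩⟩
    obtain ⟨-, h1, c, hc, h2⟩ := a q hq
    exact ⟨le_SP.trans h1, fun h => hc (hz c (h2 z (h hA)))⟩
  | cons k l ih =>
    rintro z ⟨h1, h2⟩ hz hA hy
    obtain ⟨P, f, a, b⟩ := AS (SP I y (k :: l))
    obtain ⟨P', f', a', b'⟩ := ih (y k) h1 h2 (hy k List.mem_cons_self)
      fun j hj => hy j (List.mem_cons_of_mem _ hj)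
    refine ⟨P ∪ P', f.union f', ?_, fun w hw => ?_⟩
    · rintro q (hq | hq)
      · obtain ⟨-, h1, c, hc, h2⟩ := a q hq
        exact ⟨le_SP.trans h1, fun h => hc (hz c (h2 z (h hA)))⟩
      · exact a' q hq
    · have := b w fun q hq => hw q (Or.inl hq)
      refine ⟨this, (b' w fun q hq => hw q (Or.inr hq)).2, ?_⟩
      rw [SP_cons] at this
      rw [SP_sup]
      exact swap h2 this

variable [Fintype ι] [DecidableEq ι] (K : Type*) [Field K] [Infinite K] [Algebra K S]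
include K

theorem GEN {P : Set (Ideal S)} (hP : P.Finite) (y : ι → S) (l : List ι) {k : ι} (hk : k ∈ l)
    (h : ∀ q ∈ P, ∃ j ∈ l, y j ∉ q) :
    ∃ c : ι → S, c k = 1 ∧ (∀ j ∉ l, c j = 0) ∧ ∀ q ∈ P, ∑ j, c j * y j ∉ q := by
  have := hP.to_subtype
  let f : (ι → K) →ₗ[K] S := Fintype.linearCombination K fun j => if j ∈ l then y j else 0
  let p : Option P → Submodule K (ι → K) := fun o => o.elim (LinearMap.ker (LinearMap.proj k))
    fun q => (Submodule.restrictScalars K (q.1 : Submodule S S)).comap f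
  obtain ⟨c, hc⟩ := Submodule.exists_forall_notMem_of_forall_ne_top p (by
    rintro (_ | ⟨q, hq⟩) ht
    · have : (Pi.single k 1 : ι → K) ∈ p none := ht ▸ Submodule.mem_top
      simp [p] at this
    · obtain ⟨j, hj, hy⟩ := h q hq
      have : (Pi.single j 1 : ι → K) ∈ p (some ⟨q, hq⟩) := ht ▸ Submodule.mem_top
      simp [p, f, hj] at this
      exact hy this)
  have h0 : c k ≠ 0 := by simpa [p] using hc none
  refine ⟨fun j => if j ∈ l then algebraMap K S (c j / c k) else 0, by simp [hk, h0],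
    fun j hj => by simp [hj], fun q hq hm => hc (some ⟨q, hq⟩) ?_⟩
  have := q.mul_mem_left (algebraMap K S (c k)) hm
  simp only [p, f, Option.elim, Submodule.mem_comap, Submodule.restrictScalars_mem,
    Fintype.linearCombination_apply]
  convert this using 1
  rw [Finset.mul_sum]
  refine Finset.sum_congr rfl fun j _ => ?_
  by_cases hj : j ∈ l
  · simp only [hj, if_true]
    rw [← mul_assoc, ← map_mul, mul_div_cancel₀ _ h0, Algebra.smul_def]
  · simp [hj]

theorem REG [IsNoetherianRing S] (x : ι → S) (I : Ideal S) : ∀ (u p : List ι)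
    (A : Matrix ι ι S), (u ++ p).Nodup → RegR I (A *ᵥ x) p →
    (∀ q : Ideal S, q.IsPrime → SP I (A *ᵥ x) (u ++ p) ≤ q → G q u.length (SP I (A *ᵥ x) p)) →
    ∃ (A' : Matrix ι ι S) (l : List ι), l.Perm (u ++ p) ∧ A'.det = A.det ∧
      (∀ k ∉ u, A' k = A k) ∧ (∀ J, SP J (A' *ᵥ x) l = SP J (A *ᵥ x) (u ++ p)) ∧
      RegR I (A' *ᵥ x) l := by
  intro u
  induction u with
  | nil => exact fun p A _ h _ => ⟨A, p, .refl _, rfl, fun _ _ => rfl, fun _ => rfl, h⟩
  | cons k u ih =>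
    intro p A hnd hR hG
    set y := A *ᵥ x with hy
    obtain ⟨P, f, a, b⟩ := AS (SP I y p)
    obtain ⟨c, c1, c0, hc⟩ := GEN K f y (k :: u) List.mem_cons_self (by
      intro q hq
      by_contra hn
      push Not at hn
      obtain ⟨hp, hle, d, hd, h2⟩ := a q hq
      obtain ⟨z, hz, hnz, -⟩ := hG q hp (SP_le.2 ⟨le_SP.trans hle, fun j hj =>
        (List.mem_append.1 hj).elim (hn j) fun h => hle (mem_SP h)⟩)
      exact hd (hnz d (h2 z hz)))
    set w := ∑ j, c j * y j with hw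
    have hkn : k ∉ u ++ p := (List.nodup_cons.1 hnd).1
    let A1 := A.updateRow k (∑ j, c j • A j)
    have e1 : (A1 *ᵥ x) k = w := by
      simp only [A1, hw, hy, mulVec, dotProduct, row, updateRow_self, Finset.sum_apply,
        Pi.smul_apply, smul_eq_mul, Finset.sum_mul, Finset.mul_sum, mul_assoc]
      exact Finset.sum_comm
    have e2 : ∀ j, j ≠ k → (A1 *ᵥ x) j = y j := fun j hj => by
      simp only [mulVec, A1, updateRow_ne hj, hy]
    have e3 : ∀ j ∈ p, y j = (A1 *ᵥ x) j := fun j hj =>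
      (e2 j fun h => hkn (h ▸ List.mem_append_right _ hj)).symm
    have hwk : ∀ J : Ideal S, (∀ j ∈ u, y j ∈ J) → w - y k ∈ J := fun J hJ => by
      rw [hw, ← Finset.add_sum_erase _ _ (Finset.mem_univ k), c1, one_mul, add_sub_cancel_left]
      refine J.sum_mem fun j hj => ?_
      by_cases h : j ∈ u
      · exact J.mul_mem_left _ (hJ j h)
      · rw [c0 j (by simp [h, (Finset.mem_erase.1 hj).1]), zero_mul]; exact J.zero_mem
    have e4 : ∀ I', SP I' (A1 *ᵥ x) (u ++ k :: p) = SP I' y (k :: u ++ p) := by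
      refine fun I' => eq_of_forall_ge_iff fun J => ?_
      have e5 : ∀ j ∈ u, (A1 *ᵥ x) j = y j := fun j hj =>
        e2 j fun h => hkn (h ▸ List.mem_append_left _ hj)
      simp only [SP_le, List.forall_mem_append, List.forall_mem_cons, e1, List.cons_append]
      refine and_congr_right fun _ => ⟨fun ⟨h1, h2, h3⟩ => ?_, fun ⟨h1, h2, h3⟩ => ?_⟩
      · have h4 : ∀ j ∈ u, y j ∈ J := fun j hj => e5 j hj ▸ h1 j hj
        exact ⟨by simpa using J.sub_mem h2 (hwk J h4), h4, fun j hj => (e3 j hj).symm ▸ h3 j hj⟩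
      · exact ⟨fun j hj => (e5 j hj).symm ▸ h2 j hj, by simpa using J.add_mem h1 (hwk J h2),
          fun j hj => e3 j hj ▸ h3 j hj⟩
    have hnz := b w hc
    obtain ⟨A', l, h1, h2, h3, h4, h5⟩ := ih (k :: p) A1 (List.perm_middle.nodup_iff.2 hnd)
      ⟨RegR_congr e3 hR, by rwa [e1, ← SP_congr e3]⟩ (fun q hq hle => by
        rw [SP_cons, e1, ← SP_congr e3]
        exact G_step q _ _ _ (hG q hq (e4 I ▸ hle)) hnz)
    refine ⟨A', l, h1.trans List.perm_middle, ?_, fun j hj => ?_, fun J => (h4 J).trans (e4 J), h5⟩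
    · rw [h2, det_updateRow_sum, c1, one_smul]
    · rw [List.mem_cons, not_or] at hj
      rw [h3 j hj.2]; exact updateRow_ne hj.1

omit K in
theorem adj_mem (A : Matrix ι ι S) (x : ι → S) (i : ι) :
    A.det * x i = ∑ j, A.adjugate i j * (A *ᵥ x) j := by
  have : A.adjugate *ᵥ (A *ᵥ x) = A.det • x := by
    rw [mulVec_mulVec, adjugate_mul, smul_mulVec, one_mulVec]
  exact (congrFun this i).symm

theorem wiebe [IsNoetherianRing S] (x : ι → S) : ∀ (l : List ι) (I : Ideal S)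
    (A : Matrix ι ι S), l.Nodup → (∀ k ∉ l, (A *ᵥ x) k ∈ I) →
    (Matrix.of fun k => if k ∈ l then Pi.single k 1 else A k).det = 1 → RegR I (A *ᵥ x) l →
    ∀ a, (∀ i, x i * a ∈ SP I (A *ᵥ x) l) → a ∈ SP I (A *ᵥ x) l ⊔ span {A.det} := by
  intro l
  induction l with
  | nil =>
    intro I A _ _ h _ a _
    have : A.det = 1 := by rw [← h]; congr 1
    simp [this]
  | cons k l ih =>
    rintro I A hnd hI hH ⟨hR, hk⟩ a ha
    set y := A *ᵥ x with hy
    set H : Matrix ι ι S := Matrix.of fun j => if j ∈ k :: l then Pi.single j 1 else A j with hHd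
    have hx : ∀ i, x i ∈ SP I x (k :: l) := fun i => by
      rw [← one_mul (x i), ← hH, adj_mem]
      refine sum_mem fun j _ => mul_mem_left _ _ ?_
      by_cases hj : j ∈ k :: l
      · have : (H *ᵥ x) j = x j := by simp only [mulVec, hHd, of_apply, hj, ↓ reduceIte, single_dotProduct, one_mul]
        exact this ▸ mem_SP hj
      · have : (H *ᵥ x) j = y j := by simp only [mulVec, hHd, of_apply, hj, ↓ reduceIte, hy]
        exact this ▸ le_SP (hI j hj)
    have hyA : ∀ j, y j ∈ SP I x (k :: l) := fun j =>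
      sum_mem fun i _ => mul_mem_left _ _ (hx i)
    obtain ⟨P, f, hP, hw⟩ := AV l (y k) hR hk (hyA k) fun j _ => hyA j
    obtain ⟨c, c1, c0, hc⟩ := GEN K f x (k :: l) List.mem_cons_self (by
      intro q hq
      by_contra hn
      push Not at hn
      exact (hP q hq).2 (SP_le.2 ⟨(hP q hq).1, hn⟩))
    set w := ∑ j, c j * x j with hwd
    obtain ⟨w1, w2⟩ := hw w hc
    have hkl : k ∉ l := (List.nodup_cons.1 hnd).1
    let A1 := A.updateRow k c
    have e1 : (A1 *ᵥ x) k = w := by simp only [mulVec, dotProduct, A1, updateRow_self, hwd]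
    have e2 : ∀ j, j ≠ k → (A1 *ᵥ x) j = y j := fun j hj => by
      simp only [mulVec, A1, updateRow_ne hj, hy]
    have e3 : ∀ j ∈ l, y j = (A1 *ᵥ x) j := fun j hj => (e2 j fun h => hkl (h ▸ hj)).symm
    rw [SP_cons] at ha ⊢
    set J := SP I y l with hJ
    obtain ⟨a', ha'⟩ := ms.1 (show w * a ∈ J ⊔ span {y k} by
      rw [hwd, Finset.sum_mul]
      exact sum_mem fun j _ => by rw [mul_assoc]; exact mul_mem_left _ _ (ha j))
    have := ih (I ⊔ span {w}) A1 (List.nodup_cons.1 hnd).2 (fun j hj => by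
      by_cases h : j = k
      · rw [h, e1]; exact mem_sup_right (mem_span_singleton_self _)
      · rw [e2 j h]; exact mem_sup_left (hI j (by simp [h, hj]))) (by
      refine Eq.trans ?_ ((det_updateRow_sum H k c).trans (by rw [c1, one_smul, hH]))
      congr 1
      ext j i
      by_cases h : j = k
      · subst h
        simp only [of_apply, hkl, if_false, A1, updateRow_self, Finset.sum_apply]
        rw [Finset.sum_eq_single i]
        · by_cases hi : i ∈ j :: l
          · simp [hHd, hi, -List.mem_cons]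
          · simp [c0 i hi]
        · intro t _ ht
          by_cases hi : t ∈ j :: l
          · simp [hHd, hi, -List.mem_cons, ht.symm]
          · simp [c0 t hi]
        · simp only [Finset.mem_univ, not_true_eq_false, Pi.smul_apply, smul_eq_mul, IsEmpty.forall_iff]
      · simp only [A1, of_apply, ne_eq, h, not_false_eq_true, updateRow_ne, hHd, List.mem_cons, false_or]) (RegR_congr e3 w2) a' (fun i => by
      rw [← SP_congr e3, SP_sup]
      obtain ⟨b, hb⟩ := ms.1 (ha i)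
      refine ms.2 ⟨b, hk _ ?_⟩
      convert J.sub_mem (J.mul_mem_left w hb) (J.mul_mem_left (x i) ha') using 1; ring)
    rw [← SP_congr e3, SP_sup] at this
    obtain ⟨s, hs⟩ := ms.1 this
    obtain ⟨b, hb⟩ := ms.1 hs
    have key : w * A.det - y k * A1.det ∈ J := by
      have h1 : A1.det = ∑ i, A.adjugate i k * c i := by
        rw [← cramer_transpose_apply, cramer_eq_adjugate_mulVec, ← adjugate_transpose]; rfl
      rw [h1, hwd, Finset.sum_mul, Finset.mul_sum, ← Finset.sum_sub_distrib]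
      refine sum_mem fun i _ => ?_
      have h2 := adj_mem A x i
      rw [← Finset.add_sum_erase _ _ (Finset.mem_univ k)] at h2
      have h3 : ∑ j ∈ Finset.univ.erase k, A.adjugate i j * (A *ᵥ x) j ∈ J := by
        refine sum_mem fun j hj => mul_mem_left _ _ ?_
        by_cases h : j ∈ l
        · exact mem_SP h
        · exact le_SP (hI j (by simp [h, (Finset.mem_erase.1 hj).1]))
      convert J.mul_mem_left (c i) h3 using 1
      linear_combination c i * h2
    refine ms.2 ⟨s, ms.2 ⟨b, w1 _ ?_⟩⟩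
    convert J.sub_mem (J.add_mem ha' (J.mul_mem_left (y k) hb)) (J.mul_mem_left s key) using 1
    ring

end Pool.Agent.H76m

/-! Substitutions, linear primes and multidegrees in polynomial rings. -/

namespace Pool.Agent.H76m

open Ideal MvPolynomial

variable {K : Type*} [Field K] {τ ι κ : Type*}

theorem sub_aeval_mem (t : τ → MvPolynomial τ K) (f : MvPolynomial τ K) {J : Ideal _}
    (h : ∀ s, X s - t s ∈ J) : f - aeval t f ∈ J := by
  induction f using MvPolynomial.induction_on with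
  | C a => simp
  | add p q hp hq => convert J.add_mem hp hq using 1; rw [map_add]; ring
  | mul_X p s hp =>
    convert J.add_mem (J.mul_mem_right (X s) hp) (J.mul_mem_left (aeval t p) (h s)) using 1
    rw [map_mul, aeval_X]; ring

theorem hom_fix {s : Set τ} {π : MvPolynomial τ K →ₐ[K] MvPolynomial τ K}
    (h : ∀ a ∈ s, π (X a) = X a) {f : MvPolynomial τ K} (hf : f ∈ supported K s) : π f = f :=
  (AlgHom.eqOn_adjoin_iff (φ := π) (ψ := AlgHom.id K _)).2
    (by rintro _ ⟨a, ha, rfl⟩; exact h a ha) hf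

theorem PK {pv : ι → τ} (hpv : pv.Injective) {h : ι → MvPolynomial τ K}
    (hh : ∀ i, h i ∈ supported K (Set.range pv)ᶜ) (l : List ι) :
    ∃ π : MvPolynomial τ K →ₐ[K] MvPolynomial τ K,
      (∀ f, π f = 0 ↔ f ∈ SP ⊥ (fun i => X (pv i) - h i) l) ∧
      (∀ i ∉ l, π (X (pv i)) = X (pv i)) ∧ (∀ i ∈ l, π (X (pv i)) = h i) ∧
      ∀ s ∉ Set.range pv, π (X s) = X s := by
  classical
  let t : τ → MvPolynomial τ K := Function.extend pv (fun i => if i ∈ l then h i else X (pv i)) X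
  have h1 : ∀ i, t (pv i) = if i ∈ l then h i else X (pv i) := fun i => hpv.extend_apply _ _ i
  have h2 : ∀ s ∉ Set.range pv, aeval t (X s : MvPolynomial τ K) = X s := fun s hs => by
    rw [aeval_X]; exact Function.extend_apply' _ _ _ hs
  refine ⟨aeval t, fun f => ⟨fun hf => ?_, fun hf => ?_⟩, fun i hi => by simp [h1, hi],
    fun i hi => by simp [h1, hi], h2⟩
  · have := sub_aeval_mem t f (J := SP ⊥ (fun i => X (pv i) - h i) l) fun s => by
      by_cases hs : s ∈ Set.range pv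
      · obtain ⟨i, rfl⟩ := hs
        rw [h1]
        split_ifs with hi
        exacts [mem_SP hi, by simp only [sub_self, zero_mem]]
      · rw [← aeval_X (R := K) t s, h2 s hs]; simp only [sub_self, zero_mem]
    rwa [hf, sub_zero] at this
  · refine (SP_le (J := RingHom.ker (aeval (R := K) t))).2 ⟨bot_le, fun i hi => ?_⟩ hf
    rw [RingHom.mem_ker, map_sub, hom_fix h2 (hh i)]
    simp [h1, hi]

theorem PIV {pv : ι → τ} (hpv : pv.Injective) {h : ι → MvPolynomial τ K}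
    (hh : ∀ i, h i ∈ supported K (Set.range pv)ᶜ) {p : Ideal (MvPolynomial τ K)}
    (hp : ∀ i, X (pv i) - h i ∈ p) : ∀ l l0 : List ι, (l ++ l0).Nodup →
    G p l.length (SP ⊥ (fun i => X (pv i) - h i) l0) := by
  intro l
  induction l with
  | nil => intros; trivial
  | cons k l ih =>
    intro l0 hnd
    obtain ⟨π, h1, h2, -, h4⟩ := PK hpv hh l0
    refine ⟨_, hp k, fun a ha => ?_, ?_⟩
    · rw [← h1, map_mul, map_sub, hom_fix h4 (hh k),
        h2 k fun hk => (List.nodup_cons.1 hnd).1 (List.mem_append_right _ hk)] at ha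
      refine (h1 a).1 ((mul_eq_zero.1 ha).resolve_left fun h0 => ?_)
      have := hh k
      rw [← sub_eq_zero.1 h0, X_mem_supported] at this
      exact this ⟨k, rfl⟩
    · have := ih (k :: l0) (List.perm_middle.nodup_iff.2 hnd)
      rwa [SP_cons] at this

theorem PK1 {s : τ} {h : MvPolynomial τ K} (hh : h ∈ supported K {s}ᶜ) :
    Prime (X s - h) ∧ ∃ π : MvPolynomial τ K →ₐ[K] MvPolynomial τ K,
      (∀ f, π f = 0 ↔ X s - h ∣ f) ∧ π (X s) = h ∧ ∀ s' ≠ s, π (X s') = X s' := by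
  obtain ⟨π, h1, -, h3, h4⟩ := PK (pv := fun _ : Unit => s) (h := fun _ => h)
    (fun _ _ _ => rfl) (by simpa using hh) [()]
  have h5 : ∀ f, π f = 0 ↔ X s - h ∣ f := fun f => by
    rw [h1, SP_cons, SP_nil, bot_sup_eq, mem_span_singleton]
  refine ⟨⟨fun h0 => ?_, fun hu => ?_, fun a b hab => ?_⟩, π, h5, h3 () (by simp),
    fun s' hs => h4 s' (by simpa using hs)⟩
  · rw [← sub_eq_zero.1 h0, X_mem_supported] at hh
    exact hh rfl
  · simpa using (h5 1).2 hu.dvd
  · simpa only [← h5, map_mul, mul_eq_zero] using hab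

theorem pow_le_sup {S : Type*} [CommRing S] (I J : Ideal S) (n a : ℕ) :
    (I ⊔ J) ^ n ≤ I ^ (a + 1) ⊔ J ^ (n - a) := by
  rw [← Ideal.add_eq_sup, add_pow, Ideal.sum_eq_sup]
  refine Finset.sup_le fun j _ => mul_le_left.trans ?_
  by_cases h : a + 1 ≤ j
  · exact le_sup_of_le_left (mul_le_left.trans (pow_le_pow_right h))
  · exact le_sup_of_le_right (mul_le_right.trans (pow_le_pow_right (by omega)))

theorem restr {S : Type*} [CommRing S] [IsDomain S] {α β F : S} (hα : Prime α) (h : ¬ α ∣ β)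
    {n a : ℕ} (hF : α ^ a * F ∈ span {α, β} ^ n) : ∃ u w, F = α * u + β ^ (n - a) * w := by
  rw [span_insert] at hF
  have := pow_le_sup _ _ n a hF
  rw [span_singleton_pow, span_singleton_pow, Submodule.mem_sup] at this
  obtain ⟨_, h1, _, h2, e⟩ := this
  obtain ⟨u, rfl⟩ := mem_span_singleton.1 h1
  obtain ⟨w, rfl⟩ := mem_span_singleton.1 h2
  obtain ⟨w', rfl⟩ : α ^ a ∣ w := hα.pow_dvd_of_dvd_mul_left (a := β ^ (n - a)) a
    (fun h' => h (hα.dvd_of_dvd_pow h')) ⟨F - α * u, by linear_combination e⟩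
  exact ⟨u, w', mul_left_cancel₀ (pow_ne_zero a hα.ne_zero) (by linear_combination -e)⟩

/-- Polynomials all of whose monomials have multidegree at most `w`. -/
noncomputable def WS (W : τ → κ → ℕ) (w : κ → ℕ) : Submodule K (MvPolynomial τ K) :=
  restrictSupport K {d | Finsupp.weight W d ≤ w}

variable {W : τ → κ → ℕ} {f g : MvPolynomial τ K} {w w' : κ → ℕ}

theorem mem_WS : f ∈ WS W w ↔ ∀ d ∈ f.support, Finsupp.weight W d ≤ w := Iff.rfl

theorem WS_mono (h : f ∈ WS W w) (hw : w ≤ w') : f ∈ WS W w' := fun _ hd => le_trans (h hd) hw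

theorem WS_of (h : IsWeightedHomogeneous W f w) : f ∈ WS W w :=
  fun _ hd => (h (mem_support_iff.1 hd)).le

theorem WS_mul (h : f ∈ WS W w) (h' : g ∈ WS W w') : f * g ∈ WS W (w + w') := by
  classical
  intro d hd
  obtain ⟨a, ha, b, hb, rfl⟩ := Finset.mem_add.1 (support_mul _ _ hd)
  simpa only [Set.mem_ofPred_eq, map_add] using add_le_add (h ha) (h' hb)

theorem WS_prod {α : Type*} (s : Finset α) {F : α → MvPolynomial τ K} {e : α → κ → ℕ}
    (h : ∀ a ∈ s, F a ∈ WS W (e a)) : ∏ a ∈ s, F a ∈ WS W (∑ a ∈ s, e a) := by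
  classical
  induction s using Finset.induction_on with
  | empty => exact WS_of (isWeightedHomogeneous_one K W)
  | insert a s ha ih =>
    rw [Finset.prod_insert ha, Finset.sum_insert ha]
    exact WS_mul (h a (by simp)) (ih fun b hb => h b (by simp [hb]))

theorem WS_pow (h : f ∈ WS W w) (n : ℕ) : f ^ n ∈ WS W (n • w) := by
  simpa only [nsmul_eq_mul, Finset.sum_const, Finset.card_range, Finset.prod_const] using WS_prod (Finset.range n) (F := fun _ => f) (e := fun _ => w) fun _ _ => h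

theorem WS_hom {π : MvPolynomial τ K →ₐ[K] MvPolynomial τ K} (hπ : ∀ s, π (X s) ∈ WS W (W s))
    (h : f ∈ WS W w) : π f ∈ WS W w := by
  rw [f.as_sum, map_sum]
  refine Submodule.sum_mem _ fun d hd => WS_mono ?_ (h hd)
  rw [monomial_eq, map_mul, algHom_C, ← Algebra.smul_def, Finsupp.prod, map_prod,
    Finsupp.weight_apply]
  exact Submodule.smul_mem _ _ (WS_prod _ fun s _ => by rw [map_pow]; exact WS_pow (hπ s) _)

theorem le_of_dvd (hg : IsWeightedHomogeneous W g w') (h : f ∈ WS W w) (h0 : f ≠ 0)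
    (hd : g ∣ f) : w' ≤ w := by
  classical
  obtain ⟨q, rfl⟩ := hd
  obtain ⟨d, hd⟩ := support_nonempty.2 h0
  obtain ⟨a, ha, b, hb, rfl⟩ := Finset.mem_add.1 (support_mul _ _ hd)
  have := h hd
  rw [Set.mem_setOf_eq, map_add, hg (mem_support_iff.1 ha)] at this
  exact le_self_add.trans this

theorem comp_mul (hg : IsWeightedHomogeneous W g w') :
    weightedHomogeneousComponent W (w' + w) (g * f) = g * weightedHomogeneousComponent W w f := by
  classical
  letI := weightedGradedAlgebra K W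
  simp only [← weightedDecomposition.decompose'_apply]
  exact DirectSum.coe_decompose_mul_add_of_left_mem (weightedHomogeneousSubmodule K W) hg

theorem DIVH (hg : IsWeightedHomogeneous W g w') (h : IsWeightedHomogeneous W f w) (h0 : f ≠ 0)
    (hd : g ∣ f) : ∃ q n, IsWeightedHomogeneous W q n ∧ f = g * q ∧ w = w' + n := by
  obtain ⟨n, rfl⟩ := exists_add_of_le (le_of_dvd hg (WS_of h) h0 hd)
  obtain ⟨q, rfl⟩ := hd
  exact ⟨_, n, weightedHomogeneousComponent_isWeightedHomogeneous n q,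
    by rw [← comp_mul hg, h.weightedHomogeneousComponent_same], rfl⟩

theorem comp_WS (h : f ∈ WS W w) (h0 : weightedHomogeneousComponent W w' f ≠ 0) : w' ≤ w := by
  classical
  obtain ⟨d, hd⟩ := support_nonempty.2 h0
  rw [support_weightedHomogeneousComponent, Finset.mem_filter] at hd
  exact hd.2 ▸ h hd.1

theorem comp_mem {s : Set (MvPolynomial τ K)} (hs : ∀ a ∈ s, ∃ e, IsWeightedHomogeneous W a e)
    (n : ℕ) (hf : f ∈ span s ^ n) (w : κ → ℕ) :
    weightedHomogeneousComponent W w f ∈ span s ^ n := by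
  classical
  letI := weightedGradedAlgebra K W
  refine weightedHomogeneousComponent_mem_of_mem K W ?_ hf w
  clear hf
  induction n with
  | zero => simpa using Ideal.IsHomogeneous.top _
  | succ n ih => rw [pow_succ]; exact ih.mul (homogeneous_span _ s hs)

theorem mem_of_comp {I : Ideal (MvPolynomial τ K)}
    (h : ∀ w, weightedHomogeneousComponent W w f ∈ I) : f ∈ I := by
  rw [← sum_weightedHomogeneousComponent W f,
    finsum_eq_sum _ (weightedHomogeneousComponent_finsupp f)]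
  exact sum_mem fun w _ => h w

theorem DEC [Fintype ι] {v : ι → τ} (hW : ∀ s ∉ Set.range v, W s = 0)
    (h : IsWeightedHomogeneous W f w) (hw : w ≠ 0) :
    ∃ a : ι → MvPolynomial τ K, f = ∑ i, a i * X (v i) ∧ ∀ i, a i * X (v i) ∈ WS W w := by
  classical
  induction h using IsWeightedHomogeneous.induction_on with
  | zero => exact ⟨0, by simp only [Pi.zero_apply, zero_mul, Finset.sum_const_zero, zero_mem, implies_true, and_self]⟩
  | add p q _ _ hp hq =>
    obtain ⟨a, rfl, ha⟩ := hp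
    obtain ⟨b, rfl, hb⟩ := hq
    exact ⟨a + b, by simp only [Pi.add_apply, add_mul, Finset.sum_add_distrib],
      fun i => by rw [Pi.add_apply, add_mul]; exact add_mem (ha i) (hb i)⟩
  | monomial d r hr =>
    obtain ⟨i, hi⟩ : ∃ i, d (v i) ≠ 0 := by
      by_contra hn
      push Not at hn
      refine hw (hr ▸ ?_)
      rw [Finsupp.weight_apply]
      refine Finset.sum_eq_zero fun s hs => ?_
      change d s • W s = 0
      rw [hW s, smul_zero]
      rintro ⟨i, rfl⟩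
      exact Finsupp.mem_support_iff.1 hs (hn i)
    have e : monomial (d - Finsupp.single (v i) 1) r * X (v i) = monomial d r := by
      rw [X, monomial_mul, mul_one, Finsupp.sub_add_single_one_cancel hi]
    refine ⟨Pi.single i (monomial (d - Finsupp.single (v i) 1) r), ?_, fun j => ?_⟩
    · rw [Finset.sum_eq_single i] <;> simp +contextual only [Pi.single_eq_same, e, Finset.mem_univ, ne_eq, not_false_eq_true, Pi.single_eq_of_ne, zero_mul, implies_true, imp_self, not_true_eq_false, monomial_eq_zero, IsEmpty.forall_iff]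
    · by_cases hj : j = i
      · rw [hj, Pi.single_eq_same, e]; exact WS_of (isWeightedHomogeneous_monomial W d r hr)
      · simp [hj]

end Pool.Agent.H76m

/-! The socle of `R / (g)^r` for a Hilbert-Burch ideal of linear type: degree bound. -/

namespace Pool.Agent.H76m

open Ideal MvPolynomial Matrix

variable {K : Type*} [Field K] {σ ι κ : Type*} [Fintype ι]

noncomputable def lam (y : ι → MvPolynomial σ K) : MvPolynomial (σ ⊕ ι) K :=
  ∑ l, rename Sum.inl (y l) * X (Sum.inr l)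

theorem lam_mem {J : Ideal (MvPolynomial (σ ⊕ ι) K)} {T : Set (ι → MvPolynomial σ K)}
    (h : ∀ t ∈ T, lam t ∈ J) {y} (hy : y ∈ Submodule.span (MvPolynomial σ K) T) : lam y ∈ J := by
  induction hy using Submodule.span_induction with
  | mem t ht => exact h t ht
  | zero => simp only [lam, Pi.zero_apply, rename_zero, zero_mul, Finset.sum_const_zero, zero_mem]
  | add a b _ _ ha hb => simpa only [lam, Pi.add_apply, map_add, add_mul, Finset.sum_add_distrib] using J.add_mem ha hb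
  | smul c a _ ha =>
    simpa only [lam, Pi.smul_apply, smul_eq_mul, map_mul, mul_assoc, Finset.mul_sum] using J.mul_mem_left (rename Sum.inl c) ha

omit [Fintype ι] in
noncomputable def phi (g : ι → MvPolynomial σ K) :
    MvPolynomial (σ ⊕ ι) K →ₐ[K] Polynomial (MvPolynomial σ K) :=
  aeval (Sum.elim (fun s => Polynomial.C (X s)) fun l => Polynomial.C (g l) * Polynomial.X)

variable {g : ι → MvPolynomial σ K}

omit [Fintype ι] in
theorem phi_ren (f : MvPolynomial σ K) : phi g (rename Sum.inl f) = Polynomial.C f := by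
  induction f using MvPolynomial.induction_on with
  | C a => simp [phi]
  | add p q hp hq => simp [hp, hq]
  | mul_X p s hp => rw [map_mul, map_mul, hp]; simp [phi]

theorem phi_lam (y : ι → MvPolynomial σ K) :
    phi g (lam y) = Polynomial.C (∑ l, y l * g l) * Polynomial.X := by
  simp only [lam, map_sum, map_mul, phi_ren, Finset.sum_mul, mul_assoc]
  simp only [phi, aeval_X, Sum.elim_inr]

omit [Fintype ι] in
theorem ker_le {I : Ideal (MvPolynomial (σ ⊕ ι) K)} {c Q} (hnz : NZ I Q)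
    (hT : ∀ l, Q * X (Sum.inr l) - rename Sum.inl (g l) * c ∈ I) {a} (ha : phi g a = 0) :
    a ∈ I := by
  let L := Localization.Away (Ideal.Quotient.mk I Q)
  let f : MvPolynomial (σ ⊕ ι) K →+* L := (algebraMap _ L).comp (Ideal.Quotient.mk I)
  let u : L := IsLocalization.Away.invSelf (Ideal.Quotient.mk I Q)
  have hu : f Q * u = 1 := IsLocalization.Away.mul_invSelf (Ideal.Quotient.mk I Q)
  let χ := Polynomial.eval₂RingHom (f.comp (rename (R := K) Sum.inl).toRingHom) (f c * u)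
  have h : χ.comp (phi g).toRingHom = f := by
    refine MvPolynomial.ringHom_ext (fun r => by simp only [χ, AlgHom.toRingHom_eq_coe, phi, RingHom.coe_comp, Polynomial.coe_eval₂RingHom, RingHom.coe_coe, Function.comp_apply, algHom_C, Polynomial.algebraMap_apply, algebraMap_eq, Polynomial.eval₂_C]) ?_
    rintro (s | l)
    · simp only [χ, AlgHom.toRingHom_eq_coe, phi, RingHom.coe_comp, Polynomial.coe_eval₂RingHom, RingHom.coe_coe, Function.comp_apply, aeval_X, Sum.elim_inl, Polynomial.eval₂_C, rename_X]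
    · have : f (Q * X (Sum.inr l) - rename Sum.inl (g l) * c) = 0 := by
        simp only [f, RingHom.comp_apply, Ideal.Quotient.eq_zero_iff_mem.2 (hT l), map_zero]
      rw [map_sub, map_mul, map_mul] at this
      simp only [χ, AlgHom.toRingHom_eq_coe, phi, RingHom.coe_comp, Polynomial.coe_eval₂RingHom, RingHom.coe_coe, Function.comp_apply, aeval_X, Sum.elim_inr, Polynomial.eval₂_mul, Polynomial.eval₂_C, Polynomial.eval₂_X]
      linear_combination -u * this + f (X (Sum.inr l)) * hu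
  have h0 : f a = 0 := by rw [← h]; simp [ha]
  obtain ⟨⟨_, n, rfl⟩, hn⟩ := (IsLocalization.map_eq_zero_iff
    (Submonoid.powers (Ideal.Quotient.mk I Q)) L _).1 h0
  replace hn : Q ^ n * a ∈ I := by
    rw [← Ideal.Quotient.eq_zero_iff_mem, map_mul, map_pow]; exact hn
  clear h0 ha
  induction n with
  | zero => simpa using hn
  | succ n ih => exact ih (hnz _ (by rwa [pow_succ', mul_assoc] at hn))

theorem phi_lift : ∀ (r : ℕ) {f}, f ∈ span (Set.range g) ^ r →
    ∃ a, phi g a = Polynomial.monomial r f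
  | 0, f, _ => ⟨rename Sum.inl f, phi_ren f⟩
  | r + 1, f, hf => by
    rw [pow_succ] at hf
    refine Submodule.mul_induction_on hf (fun p hp q hq => ?_) ?_
    · obtain ⟨a, ha⟩ := phi_lift r hp
      obtain ⟨c, rfl⟩ := mem_span_range_iff_exists_fun.1 hq
      exact ⟨a * lam c, by rw [map_mul, ha, phi_lam, ← mul_assoc, Polynomial.monomial_mul_C,
        Polynomial.monomial_mul_X]⟩
    · rintro p q ⟨a, ha⟩ ⟨b, hb⟩
      exact ⟨a + b, by rw [map_add, ha, hb, map_add]⟩

omit [Fintype ι] in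
theorem phi_coeff (a) (n : ℕ) : (phi g a).coeff n ∈ span (Set.range g) ^ n := by
  refine (mem_reesAlgebra_iff _ _).1 ?_ n
  induction a using MvPolynomial.induction_on with
  | C a => simpa only [phi, algHom_C, Polynomial.algebraMap_apply, algebraMap_eq, Polynomial.algebraMap_eq] using (reesAlgebra (span (Set.range g))).algebraMap_mem (C a)
  | add p q hp hq => rw [map_add]; exact add_mem hp hq
  | mul_X p s hp =>
    rw [map_mul]
    refine mul_mem hp ?_
    rcases s with s | l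
    · simpa [phi] using (reesAlgebra (span (Set.range g))).algebraMap_mem (X s)
    · have : Polynomial.monomial 1 (g l) ∈ reesAlgebra (span (Set.range g)) :=
        reesAlgebra.monomial_mem.2 (by rw [pow_one]; exact subset_span ⟨l, rfl⟩)
      simpa [phi, Polynomial.C_mul_X_eq_monomial] using this

variable [DecidableEq ι]

theorem LIN {R : Type*} [CommRing R] [IsDomain R] {M : Matrix ι ι R} {k0 : ι} {g : ι → R} {Q : R}
    (hQ : Q ≠ 0) (h : ∀ l, Pi.single l Q - g l • M k0 ∈ Submodule.span R (M '' {k | k ≠ k0}))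
    (k : ι) : ∑ l, M k l * g l = if k = k0 then Q else 0 := by
  have h1 : ∀ y ∈ Submodule.span R (M '' {k | k ≠ k0}), ∃ c : ι → R, c k0 = 0 ∧ y = c ᵥ* M := by
    intro y hy
    induction hy using Submodule.span_induction with
    | mem t ht =>
      obtain ⟨k, hk, rfl⟩ := ht
      exact ⟨Pi.single k 1, Pi.single_eq_of_ne' hk _, by simp; rfl⟩
    | zero => exact ⟨0, rfl, by simp⟩
    | add a b _ _ ha hb =>
      obtain ⟨c, c0, rfl⟩ := ha
      obtain ⟨d, d0, rfl⟩ := hb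
      exact ⟨c + d, by simp [c0, d0], by rw [add_vecMul]⟩
    | smul r a _ ha =>
      obtain ⟨c, c0, rfl⟩ := ha
      exact ⟨r • c, by simp [c0], by rw [smul_vecMul]⟩
  choose c c0 hc using fun l => h1 _ (h l)
  let Λ : Matrix ι ι R := of fun l => c l + Pi.single k0 (g l)
  have h2 : Λ * M = Q • 1 := by
    ext l i
    have := congrFun (hc l) i
    change ((c l + Pi.single k0 (g l)) ᵥ* M) i = _
    rw [add_vecMul, Pi.add_apply, ← this]
    simp [Pi.single_apply, one_apply, eq_comm]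
  have h3 : Λ.det ≠ 0 := fun h0 => by
    have := congrArg det h2
    simp only [det_mul, h0, zero_mul, det_smul_of_tower, det_one, smul_eq_mul, mul_one, eq_comm (a := (0 : R)), pow_eq_zero_iff', hQ, ne_eq, false_and] at this
  have h4 : Λ.det • (M * Λ - Q • 1) = 0 := by
    rw [← Matrix.one_mul (_ - _), ← Matrix.smul_mul, ← adjugate_mul, Matrix.mul_assoc,
      Matrix.mul_sub, ← Matrix.mul_assoc Λ, h2]
    simp
  have := congrFun (congrFun (sub_eq_zero.1 ((smul_eq_zero.1 h4).resolve_left h3)) k) k0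
  simpa only [Λ, mul_apply, of_apply, Pi.add_apply, c0, Pi.single_eq_same, zero_add, Matrix.smul_apply, one_apply, smul_eq_mul, mul_ite, mul_one, mul_zero] using this

theorem ABS [Infinite K] [Finite σ] {v : ι → σ} {W : σ → κ → ℕ}
    (hW : ∀ s ∉ Set.range v, W s = 0) {M : Matrix ι ι (MvPolynomial σ K)} {k0 : ι} {Q}
    (hQ : Q ≠ 0)
    (hΛ : ∀ l, Pi.single l Q - g l • M k0 ∈ Submodule.span (MvPolynomial σ K) (M '' {k | k ≠ k0}))
    (hp : ∀ p : Ideal (MvPolynomial (σ ⊕ ι) K), p.IsPrime → (∀ k ≠ k0, lam (M k) ∈ p) →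
      rename Sum.inl Q ∈ p → G p (Fintype.card ι) ⊥)
    {γ δ : ι → κ → ℕ} (hg : ∀ l, IsWeightedHomogeneous W (g l) (γ l)) {Mx : κ → ℕ}
    (hM : ∀ l, γ l ≤ Mx)
    (hδ : ∀ k ≠ k0, ∀ l, M k l = 0 ∨ ∃ μ ≠ 0, IsWeightedHomogeneous W (M k l) μ ∧ μ + γ l ≤ δ k)
    {e : ι → K} (e1 : e k0 = 1) (he : ∀ i, e i = 0 ∨ W (v i) = δ k0)
    (hθ : ∑ i, C (e i) * X (v i) ∣ Q) {F w} {r : ℕ} (hF : IsWeightedHomogeneous W F w)
    (hx : ∀ i, X (v i) * F ∈ span (Set.range g) ^ r) (hn : F ∉ span (Set.range g) ^ r) :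
    ∃ n, n + Fintype.card ι = r + 1 ∧ δ k0 + ∑ i, W (v i) + w ≤ ∑ k, δ k + n • Mx := by
  classical
  set θ : MvPolynomial σ K := ∑ i, C (e i) * X (v i) with hθd
  have hθ0 : θ ≠ 0 := fun h => hQ (by simpa only [h, zero_dvd_iff] using hθ)
  have heW : ∀ i, IsWeightedHomogeneous W (C (e i) * X (v i) : MvPolynomial σ K) (δ k0) :=
    fun i => (he i).elim (fun h => by simpa [h] using isWeightedHomogeneous_zero K W _)
      fun h => h ▸ (isWeightedHomogeneous_X K W _).C_mul _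
  have ha : ∀ k l, ∃ a : ι → MvPolynomial σ K, k ≠ k0 → M k l = ∑ i, a i * X (v i) ∧
      ∀ i, a i * X (v i) * g l ∈ WS W (δ k) := fun k l => by
    by_cases hk : k = k0
    · simp only [hk, ne_eq, not_true_eq_false, IsEmpty.forall_iff, exists_const]
    rcases hδ k hk l with h | ⟨μ, h0, h1, h2⟩
    · exact ⟨0, by simp only [ne_eq, h, Pi.zero_apply, zero_mul, Finset.sum_const_zero, zero_mem, implies_true, and_self]⟩
    · obtain ⟨a, h3, h4⟩ := DEC hW h1 h0
      exact ⟨a, fun _ => ⟨h3, fun i => WS_mono (WS_mul (h4 i) (WS_of (hg l))) h2⟩⟩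
  choose a ha using ha
  let x : ι → MvPolynomial (σ ⊕ ι) K := fun i => X (Sum.inl (v i))
  let A : Matrix ι ι (MvPolynomial (σ ⊕ ι) K) :=
    of fun k i => if k = k0 then C (e i) else lam fun l => a k l i
  let A1 : Matrix ι ι (MvPolynomial σ K) :=
    of fun k i => if k = k0 then C (e i) else ∑ l, a k l i * g l
  have y0 : (A *ᵥ x) k0 = rename Sum.inl θ := by simp only [mulVec, dotProduct, A, of_apply, ↓ reduceIte, x, hθd, map_sum, map_mul, algHom_C, algebraMap_eq, rename_X]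
  have y1 : ∀ k ≠ k0, (A *ᵥ x) k = lam (M k) := fun k hk => by
    simp only [A, x, mulVec, dotProduct, row, of_apply, hk, if_false, lam, (ha k _ hk).1, map_sum,
      map_mul, rename_X, Finset.sum_mul]
    rw [Finset.sum_comm]
    simp only [mul_right_comm]
  let l0 := (Finset.univ.erase k0).toList
  have hl0 : ∀ k, k ∈ l0 ↔ k ≠ k0 := by simp only [l0, Finset.mem_toList, Finset.mem_erase, ne_eq, Finset.mem_univ, and_true, implies_true]
  have hN : Fintype.card ι = l0.length + 1 := by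
    rw [Finset.length_toList, Finset.card_erase_add_one (Finset.mem_univ _), Finset.card_univ]
  have inj : Function.Injective (rename (R := K) (Sum.inl : σ → σ ⊕ ι)) :=
    rename_injective _ Sum.inl_injective
  have nz : ∀ z : MvPolynomial σ K, z ≠ 0 → NZ ⊥ (rename (Sum.inl : σ → σ ⊕ ι) z) :=
    fun z hz b hb => (mul_eq_zero.1 hb).resolve_left ((map_ne_zero_iff _ inj).2 hz)
  have reg := fun z (hz : z ≠ 0) (hd : z ∣ Q) => REG K x (⊥ ⊔ span {rename Sum.inl z}) l0 [] A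
    (by simpa using Finset.nodup_toList _) trivial (fun q hq hle => by
      obtain ⟨h1, h2⟩ := SP_le.1 hle
      rw [SP_nil]
      refine G_step q _ _ _ (hN ▸ hp q hq (fun k hk => y1 k hk ▸ h2 k (by simp [hl0, hk])) ?_)
        (nz z hz)
      exact h1 (mem_sup_right (mem_span_singleton.2 (map_dvd _ hd))))
  simp only [List.append_nil] at reg
  set I := SP ⊥ (A *ᵥ x) l0 with hI
  have hk1 : ∀ b, phi g b = 0 → b ∈ I := fun b => by
    obtain ⟨A', l, -, -, -, h4, h5⟩ := reg Q hQ dvd_rfl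
    refine ker_le (c := lam (M k0)) (by rw [hI, ← h4]; exact NZ_through (nz Q hQ) h5) fun j => ?_
    have := lam_mem (J := I) (by
      rintro _ ⟨k, hk, rfl⟩; exact y1 k hk ▸ mem_SP ((hl0 k).2 hk)) (hΛ j)
    convert this using 1
    simp only [lam, Finset.mul_sum, Pi.sub_apply, Pi.single_apply, Pi.smul_apply, smul_eq_mul, map_sub, apply_ite, rename_zero, map_mul, sub_mul, ite_mul, zero_mul, mul_assoc, Finset.sum_sub_distrib, Finset.sum_ite_eq', Finset.mem_univ, ↓ reduceIte]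
  have hk2 : I ≤ RingHom.ker (phi g) := SP_le.2 ⟨bot_le, fun k hk => by
    rw [hl0] at hk
    rw [RingHom.mem_ker, y1 k hk, phi_lam, LIN hQ hΛ, if_neg hk]; simp⟩
  obtain ⟨A', l, h1, h2, h3, h4, h5⟩ := reg θ hθ0 hθ
  have hl : ∀ k, k ∈ l ↔ k ≠ k0 := fun k => h1.mem_iff.trans (hl0 k)
  have h6 : A' k0 = fun i => C (e i) := by rw [h3 k0 (by simp [hl0])]; ext1 i; simp [A]
  obtain ⟨b, hb⟩ := phi_lift r (f := θ * F) (by
    rw [hθd, Finset.sum_mul]
    exact sum_mem fun i _ => by rw [mul_assoc]; exact mul_mem_left _ _ (hx i))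
  have hw := wiebe K x l _ A' (h1.nodup_iff.2 (Finset.nodup_toList _)) (fun k hk => by
    obtain rfl : k = k0 := by simpa [hl] using hk
    have : (A' *ᵥ x) k = (A *ᵥ x) k := by simp only [mulVec, row, h3 k (by simp [hl0])]
    rw [this, y0]
    exact mem_sup_right (mem_span_singleton_self _)) (by
    refine Eq.trans ?_ ((det_updateRow_sum 1 k0 fun i => C (e i)).trans (by simp [e1]))
    congr 1
    ext1 k i
    by_cases hk : k = k0
    · simp only [hl, ne_eq, ite_not, hk, of_apply, ↓ reduceIte, h6, updateRow_self, Finset.sum_apply, Pi.smul_apply, one_apply, smul_eq_mul, mul_ite, mul_one, mul_zero, Finset.sum_ite_eq', Finset.mem_univ]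
    · simp only [hl, ne_eq, ite_not, of_apply, hk, ↓ reduceIte, Pi.single_apply, eq_comm (a := i), not_false_eq_true, updateRow_ne, one_apply]) h5 b (fun i => by
    obtain ⟨c, hc⟩ := phi_lift r (hx i)
    rw [h4, SP_sup]
    refine ms.2 ⟨c, hk1 _ ?_⟩
    rw [map_sub, map_mul, map_mul, hb, hc, phi_ren]
    simp only [phi, x, aeval_X, Sum.elim_inl, Polynomial.C_mul_monomial, mul_left_comm, sub_self])
  rw [h4, SP_sup, h2] at hw
  obtain ⟨h, hh⟩ := ms.1 hw
  let t : σ ⊕ ι → MvPolynomial (σ ⊕ ι) K := fun s => if s ∈ Set.range (Sum.inl ∘ v) then 0 else X s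
  have h7 := Submodule.mem_colon_singleton.1 <| sub_aeval_mem t h
    (J := Submodule.colon (I ⊔ span {rename Sum.inl θ}) {A.det}) fun s => by
    by_cases hs : s ∈ Set.range (Sum.inl ∘ v)
    · rw [Submodule.mem_colon_singleton, show t s = 0 from if_pos hs, sub_zero, smul_eq_mul,
        mul_comm]
      obtain ⟨i, rfl⟩ := hs
      refine adj_mem A x i ▸ sum_mem fun k _ => mul_mem_left _ _ ?_
      by_cases hk : k = k0
      · rw [hk, y0]; exact mem_sup_right (mem_span_singleton_self _)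
      · exact mem_sup_left (mem_SP ((hl0 k).2 hk))
    · rw [show t s = X s from if_neg hs]; simp only [sub_self, zero_mem]
  obtain ⟨j, hj⟩ := ms.1 (show b - A.det * aeval t h ∈ _ by
    convert add_mem hh h7 using 1; rw [smul_eq_mul]; ring)
  have h8 : ∀ (h : MvPolynomial (σ ⊕ ι) K) n, (phi g (aeval t h)).coeff n ∈ WS W (n • Mx) := by
    intro h
    induction h using MvPolynomial.induction_on with
    | C c =>
      rw [aeval_C]
      rintro (_ | n)
      · simpa [phi] using WS_of (isWeightedHomogeneous_C W c)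
      · simp only [nsmul_eq_mul, Nat.cast_add, Nat.cast_one, phi, algebraMap_eq, algHom_C, Polynomial.algebraMap_apply, Polynomial.coeff_C_succ, zero_mem]
    | add p q hp hq => intro n; simpa only [nsmul_eq_mul, aeval_eq_bind₁, map_add, Polynomial.coeff_add] using add_mem (hp n) (hq n)
    | mul_X p s hp =>
      intro n
      rw [map_mul, map_mul, aeval_X]
      by_cases hs : s ∈ Set.range (Sum.inl ∘ v)
      · rw [show t s = 0 from if_pos hs]; simp only [nsmul_eq_mul, aeval_eq_bind₁, map_zero, mul_zero, Polynomial.coeff_zero, zero_mem]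
      rw [show t s = X s from if_neg hs]
      rcases s with s | s
      · have := WS_mul (hp n) (WS_of (isWeightedHomogeneous_X K W s))
        rw [hW s (by simpa only [Set.mem_range, not_exists, Function.comp_apply, Sum.inl.injEq] using hs), add_zero] at this
        simpa only [nsmul_eq_mul, phi, aeval_eq_bind₁, aeval_X, Sum.elim_inl, Polynomial.coeff_mul_C] using this
      · rcases n with _ | n
        · simp [phi, ← mul_assoc]
        · have := WS_mono (WS_mul (hp n) (WS_of (hg s))) (add_le_add_right (hM s) _)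
          rw [succ_nsmul]
          simpa only [nsmul_eq_mul, phi, aeval_eq_bind₁, aeval_X, Sum.elim_inr, ← mul_assoc, Polynomial.coeff_mul_X, Polynomial.coeff_mul_C] using this
  have h9 : phi g A.det = Polynomial.X ^ l0.length * Polynomial.C A1.det := by
    rw [AlgHom.map_det, RingHom.map_det, Finset.length_toList, ← Finset.prod_const,
      Finset.prod_congr rfl (g := fun k => if k = k0 then 1 else Polynomial.X)
        (fun k hk => by simp [(Finset.mem_erase.1 hk).1]), Finset.prod_erase _ (by simp),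
      ← det_mul_column]
    congr 1
    ext1 k i
    by_cases hk : k = k0
    · simp only [phi, A, hk, AlgHom.mapMatrix_apply, map_apply, of_apply, ↓ reduceIte, algHom_C, Polynomial.algebraMap_apply, algebraMap_eq, A1, RingHom.mapMatrix_apply, ite_mul, one_mul, Polynomial.X_mul_C]
    · simp only [A, A1, hk, if_false, AlgHom.mapMatrix_apply, RingHom.mapMatrix_apply, map_apply,
        of_apply, phi_lam, mul_comm]
  have h10 := congrArg (Polynomial.coeff · r) (RingHom.mem_ker.1 (hk2 hj))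
  have hJ := phi_coeff (g := g) j r
  simp only [map_sub, map_mul, hb, h9, phi_ren, mul_assoc, Polynomial.coeff_sub, Polynomial.coeff_C_mul, Polynomial.coeff_zero,
    Polynomial.coeff_monomial_same, Polynomial.coeff_X_pow_mul'] at h10
  split_ifs at h10 with hr
  · refine ⟨r - l0.length, by omega, ?_⟩
    have hP : (∏ i, X (v i)) * A1.det ∈ WS W (∑ k, δ k) := by
      rw [← det_mul_row, det_apply]
      refine Submodule.sum_mem _ fun s _ => ?_
      rw [Units.smul_def, ← Equiv.sum_comp s δ]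
      refine zsmul_mem (WS_prod _ fun i _ => ?_) _
      by_cases hk : s i = k0
      · simpa only [hk, A1, mul_comm, of_apply, mul_ite, ↓ reduceIte] using WS_of (heW i)
      · simp only [A1, of_apply, hk, if_false, Finset.mul_sum]
        exact Submodule.sum_mem _ fun l _ => by
          simpa [mul_assoc, mul_left_comm] using (ha _ l hk).2 i
    have hH := (IsWeightedHomogeneous.sum _ _ _ fun i (_ : i ∈ Finset.univ) => heW i).mul
      (IsWeightedHomogeneous.prod Finset.univ (fun i => (X (v i) : MvPolynomial σ K)) _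
        fun i _ => isWeightedHomogeneous_X K W _)
    refine comp_WS (WS_mul hP (h8 h _)) ?_
    rw [show (∏ i, X (v i)) * A1.det * (phi g (aeval t h)).coeff (r - l0.length) =
      θ * (∏ i, X (v i)) * (F - (phi g j).coeff r) by linear_combination -(∏ i, X (v i)) * h10,
      comp_mul hH, map_sub, hF.weightedHomogeneousComponent_same]
    refine mul_ne_zero (mul_ne_zero hθ0 (Finset.prod_ne_zero_iff.2 fun i _ => X_ne_zero _))
      fun h0 => hn ?_
    rw [sub_eq_zero.1 h0]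
    exact comp_mem (by rintro _ ⟨l, rfl⟩; exact ⟨_, hg l⟩) r hJ w
  · obtain rfl : F = (phi g j).coeff r := mul_left_cancel₀ hθ0 (by linear_combination h10)
    exact absurd hJ hn

end Pool.Agent.H76m

/-! Monomial arrangements in standard form: hyperplanes, their product, the generators. -/

namespace Pool.Agent.H76m

open Ideal MvPolynomial Finset

/-- Intersection of the `n`-th powers of the ideals of the codimension two flats. -/
noncomputable def Js {R : Type*} [CommRing R] (A : Set R) (n : ℕ) : Ideal R :=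
  ⨅ α ∈ A, ⨅ β ∈ A, ⨅ _ : ¬ Associated α β, span {α, β} ^ n

theorem mem_Js {R : Type*} [CommRing R] {A : Set R} {n : ℕ} {f : R} :
    f ∈ Js A n ↔ ∀ α ∈ A, ∀ β ∈ A, ¬ Associated α β → f ∈ span {α, β} ^ n := by
  simp only [Js, Submodule.mem_iInf]

theorem assocC {σ : Type} {c : ℂ} (hc : c ≠ 0) (p : MvPolynomial σ ℂ) : Associated (C c * p) p :=
  associated_unit_mul_left p _ (hc.isUnit.map C)

structure Dat (σ ι β : Type) where
  v : ι → σ
  hv : v.Injective
  b : ι → β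
  m : β → ℕ
  fl : β → Prop

namespace Dat

variable {σ ι β : Type} (D : Dat σ ι β)

def Std : Prop :=
  ∀ i, 0 < D.m (D.b i) ∧ (¬ D.fl (D.b i) → 2 ≤ D.m (D.b i) ∧ ∃ j ≠ i, D.b j = D.b i)

def Hyp (k l : ι) (ζ : ℂ) : Prop :=
  D.b l = D.b k ∧ (k ≠ l ∧ ζ ^ D.m (D.b k) = 1 ∨ k = l ∧ ζ = 0 ∧ D.fl (D.b k))

noncomputable abbrev x (i : ι) : MvPolynomial σ ℂ := X (D.v i)

noncomputable def fm (k l : ι) (ζ : ℂ) : MvPolynomial σ ℂ := D.x k - C ζ * D.x l

def Fm : Set (MvPolynomial σ ℂ) := {α | ∃ k l ζ, D.Hyp k l ζ ∧ α = D.fm k l ζ}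

open Classical in
noncomputable def ε (i : ι) : MvPolynomial σ ℂ := if D.fl (D.b i) then 1 else D.x i

noncomputable def gI : Ideal (MvPolynomial σ ℂ) :=
  span {f | (∀ α ∈ D.Fm, α ∣ f) ∨ ∃ i h, f = D.ε i * h ∧
    ∀ k l ζ, D.Hyp k l ζ → k ≠ i → l ≠ i → D.fm k l ζ ∣ h}

open Classical in
noncomputable def wt (i j : ι) : ℕ := if D.b i = D.b j then 1 else 0

noncomputable def W : σ → ι → ℕ := Function.extend D.v D.wt 0

variable {D} {i k l k' l' : ι} {ζ ζ' : ℂ}

theorem W_v (i : ι) : D.W (D.v i) = D.wt i := D.hv.extend_apply _ _ i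

theorem W_free (s) (hs : s ∉ Set.range D.v) : D.W s = 0 := Function.extend_apply' _ _ _ hs

theorem wt_eq (h : D.b l = D.b k) : D.wt l = D.wt k := by unfold wt; rw [h]

theorem x_WH (i : ι) : IsWeightedHomogeneous D.W (D.x i) (D.wt i) :=
  W_v i ▸ isWeightedHomogeneous_X ℂ D.W _

theorem fm_WH (h : D.b l = D.b k) : IsWeightedHomogeneous D.W (D.fm k l ζ) (D.wt k) :=
  (x_WH k).sub (wt_eq h ▸ (x_WH l).C_mul ζ)

theorem Hyp.ne (hS : D.Std) (h : D.Hyp k l ζ) (hk : k ≠ l) : ζ ≠ 0 := by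
  rintro rfl
  simpa [hk, (hS k).1.ne'] using h.2

theorem Hyp.pk (h : D.Hyp k l ζ) : Prime (D.fm k l ζ) ∧
    ∃ π : MvPolynomial σ ℂ →ₐ[ℂ] MvPolynomial σ ℂ, (∀ f, π f = 0 ↔ D.fm k l ζ ∣ f) ∧
      π (D.x k) = C ζ * D.x l ∧ ∀ s ≠ D.v k, π (X s) = X s := by
  refine PK1 ?_
  rcases h.2 with ⟨h, -⟩ | ⟨-, rfl, -⟩
  · exact mul_mem (Subalgebra.algebraMap_mem _ ζ) (X_mem_supported.2 fun e => h (D.hv e).symm)
  · simp

theorem ev_fm (pt : ι → ℂ) (a : σ → ℂ) :
    eval (Function.extend D.v pt a) (D.fm k l ζ) = pt k - ζ * pt l := by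
  simp only [fm, map_sub, eval_X, D.hv.extend_apply, map_mul, eval_C]

theorem ev_dvd (h : D.fm k l ζ ∣ D.fm k' l' ζ') (pt : ι → ℂ) (h0 : pt k = ζ * pt l) :
    pt k' = ζ' * pt l' := by
  have := map_dvd (eval (Function.extend D.v pt 0)) h
  rwa [ev_fm, ev_fm, h0, sub_self, zero_dvd_iff, sub_eq_zero] at this

theorem NF (hS : D.Std) (h : D.Hyp k l ζ) (hi : ¬ (k ≠ i ∧ l ≠ i)) :
    ∃ j η, D.Hyp i j η ∧ Associated (D.fm k l ζ) (D.fm i j η) := by
  by_cases hk : k = i
  · exact ⟨l, ζ, hk ▸ h, hk ▸ .refl _⟩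
  obtain rfl : l = i := by tauto
  have h0 := h.ne hS hk
  refine ⟨k, ζ⁻¹, ⟨h.1.symm, Or.inl ⟨Ne.symm hk, ?_⟩⟩, ?_⟩
  · rw [inv_pow, h.1, (h.2.resolve_right fun h => hk h.1).2, inv_one]
  · convert assocC (neg_ne_zero.2 h0) _ using 1
    have : (C ζ * C ζ⁻¹ : MvPolynomial σ ℂ) = 1 := by rw [← map_mul, mul_inv_cancel₀ h0, map_one]
    simp only [fm, map_neg]
    linear_combination (-D.x k) * this

theorem gI_le (hS : D.Std) : D.gI ≤ Js D.Fm 1 := by
  refine span_le.2 fun f hf => mem_Js.2 fun α hα β hβ hn => ?_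
  rw [pow_one]
  set J := span {α, β}
  have a1 : α ∈ J := subset_span (by simp)
  have b1 : β ∈ J := subset_span (by simp)
  rcases hf with hf | ⟨i, h, rfl, hf⟩
  · exact mem_of_dvd J (hf α hα) a1
  have key : ∀ k l ζ, D.Hyp k l ζ → k ≠ i → l ≠ i → D.fm k l ζ ∈ J → D.ε i * h ∈ J :=
    fun k l ζ h1 h2 h3 h4 => J.mul_mem_left _ (mem_of_dvd J (hf k l ζ h1 h2 h3) h4)
  have cc : ∀ {c : ℂ} {p}, c ≠ 0 → C c * p ∈ J → p ∈ J := fun hc => mem_of_dvd J (assocC hc _).dvd
  obtain ⟨k, l, ζ, h1, rfl⟩ := hα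
  obtain ⟨k', l', ζ', h2, rfl⟩ := hβ
  by_cases c1 : k ≠ i ∧ l ≠ i
  · exact key _ _ _ h1 c1.1 c1.2 a1
  by_cases c2 : k' ≠ i ∧ l' ≠ i
  · exact key _ _ _ h2 c2.1 c2.2 b1
  obtain ⟨j, η, h3, e1⟩ := NF hS h1 c1
  obtain ⟨j', η', h4, e2⟩ := NF hS h2 c2
  have hne : ¬ (j = j' ∧ η = η') := by rintro ⟨rfl, rfl⟩; exact hn (e1.trans e2.symm)
  have a2 := mem_of_dvd J e1.dvd a1
  have b2 := mem_of_dvd J e2.dvd b1
  have k2 : ∀ j η, D.Hyp i j η → i ≠ j → D.fl (D.b i) → D.fm i i 0 ∈ J → D.fm i j η ∈ J →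
      D.ε i * h ∈ J := fun j η h1 h2 h3 h4 h5 =>
    key j j 0 ⟨rfl, Or.inr ⟨rfl, rfl, h1.1 ▸ h3⟩⟩ h2.symm h2.symm (cc (h1.ne hS h2) (by
      convert J.sub_mem h4 h5 using 1; simp [fm]))
  rcases h3.2 with ⟨n1, r1⟩ | ⟨rfl, rfl, r1⟩ <;> rcases h4.2 with ⟨n2, r2⟩ | ⟨rfl, rfl, r2⟩
  · by_cases hj : j = j'
    · subst hj
      have hx : D.x j ∈ J := cc (c := η' - η) (sub_ne_zero.2 fun h => hne ⟨rfl, h.symm⟩) (by
        convert J.sub_mem a2 b2 using 1; simp only [fm, map_sub]; ring)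
      by_cases hfl : D.fl (D.b i)
      · exact key j j 0 ⟨rfl, Or.inr ⟨rfl, rfl, h3.1 ▸ hfl⟩⟩ n1.symm n1.symm (by simpa [fm])
      · refine J.mul_mem_right _ ?_
        simpa [ε, hfl, fm] using J.add_mem a2 (J.mul_mem_left (C η) hx)
    · have h0 := h3.ne hS n1
      refine key j j' (η' / η) ⟨h4.1.trans h3.1.symm, Or.inl ⟨hj, ?_⟩⟩ n1.symm n2.symm (cc h0 ?_)
      · rw [div_pow, h3.1, r1, r2, div_one]
      · convert J.sub_mem b2 a2 using 1
        simp only [fm, mul_sub, ← mul_assoc, ← map_mul, mul_div_cancel₀ _ h0]; ring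
  · exact k2 _ _ h3 n1 r2 b2 a2
  · exact k2 _ _ h4 n2 r1 a2 b2
  · exact absurd ⟨rfl, rfl⟩ hne

variable [LinearOrder ι]

theorem NA (hS : D.Std) (h : D.Hyp k l ζ) (h' : D.Hyp k' l' ζ') (o : l ≤ k) (o' : l' ≤ k')
    (hd : D.fm k l ζ ∣ D.fm k' l' ζ') : k = k' ∧ l = l' ∧ ζ = ζ' := by
  have h1 := ev_dvd hd
  have h2 := ev_dvd (h.pk.1.associated_of_dvd h'.pk.1 hd).symm.dvd
  have t : ∀ {k l k' l' : ι} {ζ ζ' : ℂ}, D.Hyp k l ζ → (∀ pt : ι → ℂ, pt k' = ζ' * pt l' →
      pt k = ζ * pt l) → (k = k' ∨ k = l') ∧ (l = k' ∨ l = l') := by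
    intro k l k' l' ζ ζ' h H
    have a : k = k' ∨ k = l' := by
      by_contra hn
      push Not at hn
      have := H (Pi.single k 1) (by simp [hn.1.symm, hn.2.symm])
      rcases h.2 with ⟨h, -⟩ | ⟨-, rfl, -⟩
      · simp [h.symm] at this
      · simp at this
    refine ⟨a, ?_⟩
    by_contra hn
    push Not at hn
    have hk : k ≠ l := by rintro rfl; tauto
    simpa [hk, (h.ne hS hk).symm] using H (Pi.single l 1) (by simp [hn.1.symm, hn.2.symm])
  obtain ⟨a1, a2⟩ := t h h2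
  obtain ⟨a3, a4⟩ := t h' h1
  obtain rfl : k = k' := by rcases a1 with h | h <;> rcases a3 with h | h <;> order
  obtain rfl : l = l' := by rcases a2 with h | h <;> rcases a4 with h | h <;> order
  refine ⟨rfl, rfl, ?_⟩
  by_cases hk : k = l
  · rw [(h.2.resolve_left fun h => h.1 hk).2.1, (h'.2.resolve_left fun h => h.1 hk).2.1]
  · simpa [Ne.symm hk] using h1 (fun j => if j = k then ζ else 1) (by simp [Ne.symm hk])

variable (D) in
open Classical in
noncomputable def Z (k l : ι) : Finset ℂ :=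
  if k = l then if D.fl (D.b k) then {0} else ∅
  else if D.b l = D.b k then Polynomial.nthRootsFinset (D.m (D.b k)) 1 else ∅

theorem mem_Z (hS : D.Std) : ζ ∈ D.Z k l ↔ D.Hyp k l ζ := by
  unfold Z Hyp
  split_ifs with h1 h2 h2 <;> try subst h1
  all_goals simp [*, Polynomial.mem_nthRootsFinset (hS _).1]

variable (D) in
noncomputable def U (k l : ι) : MvPolynomial σ ℂ := ∏ ζ ∈ D.Z k l, D.fm k l ζ

theorem U_eq (hS : D.Std) (h : k ≠ l) (hb : D.b l = D.b k) :
    D.U k l = D.x k ^ D.m (D.b k) - D.x l ^ D.m (D.b k) := by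
  refine MvPolynomial.funext fun a => ?_
  simp only [U, Z, h, hb, if_true, if_false, map_prod, fm, map_sub, map_pow, map_mul, eval_C]
  exact ((Complex.isPrimitiveRoot_exp _ (hS k).1.ne').pow_sub_pow_eq_prod_sub_mul _ _
    (hS k).1).symm

theorem U_WH (hS : D.Std) (k l : ι) :
    IsWeightedHomogeneous D.W (D.U k l) ((D.Z k l).card • D.wt k) := by
  simpa only [U, nsmul_eq_mul, sum_const] using IsWeightedHomogeneous.prod (D.Z k l) _ (fun _ => D.wt k)
    fun ζ h => fm_WH ((mem_Z hS).1 h).1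

variable [Fintype ι]

variable (D) in
noncomputable def PQ (P : ι × ι → Prop) [DecidablePred P] : MvPolynomial σ ℂ :=
  ∏ p with p.2 ≤ p.1 ∧ P p, D.U p.1 p.2

variable (D) in
noncomputable def dQ (P : ι × ι → Prop) [DecidablePred P] : ι → ℕ :=
  ∑ p with p.2 ≤ p.1 ∧ P p, (D.Z p.1 p.2).card • D.wt p.1

variable {P : ι × ι → Prop} [DecidablePred P]

theorem PQ_WH (hS : D.Std) : IsWeightedHomogeneous D.W (D.PQ P) (D.dQ P) :=
  IsWeightedHomogeneous.prod _ _ _ fun _ _ => U_WH hS _ _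

theorem PQ_zero (hS : D.Std) {L : Type*} [CommRing L] [IsDomain L] (f : MvPolynomial σ ℂ →+* L)
    (h : f (D.PQ P) = 0) : ∃ k l ζ, D.Hyp k l ζ ∧ l ≤ k ∧ P (k, l) ∧ f (D.fm k l ζ) = 0 := by
  simp only [PQ, U, map_prod, prod_eq_zero_iff, mem_filter] at h
  obtain ⟨⟨k, l⟩, ⟨-, h1, h2⟩, ζ, h3, h4⟩ := h
  exact ⟨k, l, ζ, (mem_Z hS).1 h3, h1, h2, h4⟩

theorem PQ_ne (hS : D.Std) : D.PQ P ≠ 0 := fun h => by
  obtain ⟨k, l, ζ, h1, -, -, h2⟩ := PQ_zero hS (RingHom.id _) h
  exact h1.pk.1.ne_zero h2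

theorem PQ_dvd (hS : D.Std) {a : ℕ} {f}
    (h : ∀ k l ζ, D.Hyp k l ζ → l ≤ k → P (k, l) → D.fm k l ζ ^ a ∣ f) : D.PQ P ^ a ∣ f := by
  simp only [PQ, U]
  rw [← prod_sigma (f := fun s : (Σ _ : ι × ι, ℂ) => D.fm s.1.1 s.1.2 s.2), ← prod_pow]
  refine prod_dvd_of_isRelPrime ?_ ?_
  · rintro ⟨⟨k, l⟩, ζ⟩ h1 ⟨⟨k', l'⟩, ζ'⟩ h2 hne
    simp only [mem_coe, mem_sigma, mem_filter, mem_Z hS] at h1 h2
    refine (h1.2.pk.1.irreducible.isRelPrime_iff_not_dvd.2 fun hd => hne ?_).pow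
    obtain ⟨rfl, rfl, rfl⟩ := NA hS h1.2 h2.2 h1.1.2.1 h2.1.2.1 hd
    rfl
  · rintro ⟨⟨k, l⟩, ζ⟩ h1
    simp only [mem_sigma, mem_filter, mem_Z hS] at h1
    exact h _ _ _ h1.2 h1.1.2.1 h1.1.2.2

theorem dvd_PQ (hS : D.Std) (h : D.Hyp k l ζ) (hP : P (k, l)) (hP' : P (l, k)) :
    D.fm k l ζ ∣ D.PQ P := by
  have t : ∀ {k l ζ}, D.Hyp k l ζ → l ≤ k → P (k, l) → D.fm k l ζ ∣ D.PQ P := fun h o hP =>
    (dvd_prod_of_mem _ ((mem_Z hS).2 h)).trans
      (dvd_prod_of_mem (fun p : ι × ι => D.U p.1 p.2) (a := (_, _)) (by simp only [mem_filter, mem_univ, o, hP, and_self]))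
  rcases le_total l k with o | o
  · exact t h o hP
  by_cases hk : k = l
  · exact t h hk.ge hP
  obtain ⟨j, η, h1, h2⟩ := NF (i := l) hS h (by simp)
  obtain rfl : j = k := by
    by_contra hn
    have := ev_dvd h2.symm.dvd (Pi.single k 1) (by simp [hn, Ne.symm hk])
    simp [Ne.symm hk] at this
  exact h2.dvd.trans (t h1 o hP')

variable (D) in
noncomputable abbrev Q := D.PQ fun _ => True

variable (D) in
noncomputable abbrev gt (i : ι) := D.PQ fun p => p.1 ≠ i ∧ p.2 ≠ i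

theorem Q_eq (hS : D.Std) (i : ι) : ∃ c : ℂ, c ≠ 0 ∧ D.Q = C c * D.gt i * ∏ l, D.U i l := by
  have : ∀ l, ∃ c : ℂ, c ≠ 0 ∧ D.U (max i l) (min i l) = C c * D.U i l := fun l => by
    rcases le_or_gt l i with h | h
    · exact ⟨1, one_ne_zero, by simp only [h, sup_of_le_left, inf_of_le_right, C_1, one_mul]⟩
    rw [max_eq_right h.le, min_eq_left h.le]
    by_cases hb : D.b l = D.b i
    · exact ⟨-1, by simp, by rw [U_eq hS h.ne hb, U_eq hS h.ne' hb.symm, hb]; simp only [C_neg, C_1, neg_mul, one_mul, neg_sub]⟩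
    · exact ⟨1, one_ne_zero, by simp [U, Z, h.ne, h.ne', hb, Ne.symm hb]⟩
  choose c h0 hc using this
  refine ⟨∏ l, c l, prod_ne_zero_iff.2 fun l _ => h0 l, ?_⟩
  rw [mul_right_comm, map_prod, ← prod_mul_distrib, ← prod_congr rfl fun l _ => hc l, mul_comm,
    Q, PQ, ← prod_filter_mul_prod_filter_not _ fun p : ι × ι => p.1 ≠ i ∧ p.2 ≠ i, filter_filter,
    filter_filter]
  congr 1
  · simp only [and_true, ne_eq, gt, PQ]
  · refine (prod_nbij (fun l => (max i l, min i l)) (fun l _ => by simpa only [and_true, ne_eq, not_and, Decidable.not_not, mem_filter, mem_univ, le_sup_iff, inf_le_left, inf_le_right, or_self, sup_eq_left, not_le, inf_eq_left, true_and] using le_of_lt) ?_ ?_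
      fun _ _ => rfl).symm
    · intro a _ b _ h
      simp only [Prod.mk.injEq] at h
      order
    · rintro ⟨a, b⟩ h
      simp only [coe_filter, Set.mem_setOf_eq] at h
      by_cases ha : a = i
      · exact ⟨b, by simp only [coe_univ, Set.mem_univ], by simp only [← ha, h.2.1.1, sup_of_le_left, inf_of_le_right]⟩
      · obtain rfl : b = i := by tauto
        exact ⟨a, by simp only [coe_univ, Set.mem_univ], by simp only [h.2.1.1, sup_of_le_right, inf_of_le_left]⟩

end Dat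

end Pool.Agent.H76m

/-! The relations between the generators, and their degrees. -/

namespace Pool.Agent.H76m

open Ideal MvPolynomial Finset

theorem VAN {L ι : Type*} [Field L] [DecidableEq L] [DecidableEq ι] {s E : Finset ι}
    {x y u : ι → L} {d : ℕ} (hE : E ⊆ s) (hd : #s ≤ d + #E) (hy : ∀ i ∈ s, x i = 0 → y i = 0)
    (hr : ∀ i ∈ E, x i ≠ 0 → ∃ j ∈ s, j ∉ E ∧ u j = u i)
    (h : ∀ t < d, ∑ i ∈ s, y i * u i ^ t = 0) (c : L) : ∑ i ∈ s with u i = c, y i = 0 := by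
  set V := (s \ E).image u
  have hV : ∀ i ∈ s, y i ≠ 0 → u i ∈ V := fun i hi h0 => by
    by_cases h1 : i ∈ E
    · obtain ⟨j, h2, h3, h4⟩ := hr i h1 fun h => h0 (hy i hi h)
      exact mem_image.2 ⟨j, mem_sdiff.2 ⟨h2, h3⟩, h4⟩
    · exact mem_image_of_mem _ (mem_sdiff.2 ⟨hi, h1⟩)
  by_cases hc : c ∈ V
  swap
  · refine sum_eq_zero fun i hi => by_contra fun h0 => hc ?_
    rw [mem_filter] at hi
    exact hi.2 ▸ hV i hi.1 h0
  let P := ∏ a ∈ V.erase c, (Polynomial.X - Polynomial.C a)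
  have h1 : P.natDegree < d := by
    have h2 : #V ≤ _ := card_image_le
    have h3 := card_sdiff_add_card_eq_card hE
    have h4 := card_erase_add_one hc
    rw [Polynomial.natDegree_finset_prod_X_sub_C_eq_card]
    omega
  have h2 : ∑ i ∈ s, y i * P.eval (u i) = 0 := by
    simp only [Polynomial.eval_eq_sum_range' h1, mul_sum]
    rw [sum_comm]
    refine sum_eq_zero fun t ht => ?_
    simp only [mul_left_comm (y _), ← mul_sum, h t (mem_range.1 ht), mul_zero]
  have h3 : ∀ a, P.eval a = 0 ↔ a ∈ V.erase c := fun a => by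
    simp only [P, Polynomial.eval_prod, Polynomial.eval_sub, Polynomial.eval_X, Polynomial.eval_C, prod_eq_zero_iff, mem_erase, ne_eq, sub_eq_zero, exists_eq_right']
  refine (mul_eq_zero.1 (?_ : _ * P.eval c = 0)).resolve_right (by simp [h3])
  rw [← h2, sum_mul, sum_filter]
  refine sum_congr rfl fun i hi => ?_
  split_ifs with h4
  · rw [h4]
  · by_cases h0 : y i = 0
    · simp [h0]
    · rw [(h3 _).2 (mem_erase.2 ⟨h4, hV i hi h0⟩), mul_zero]

theorem VAN' {L ι : Type*} [Field L] [DecidableEq L] {s : Finset ι} {y u : ι → L}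
    (h : ∀ c, ∑ i ∈ s with u i = c, y i = 0) (t : ℕ) : ∑ i ∈ s, y i * u i ^ t = 0 := by
  rw [← sum_fiberwise_of_maps_to (g := u) (t := s.image u) fun _ => mem_image_of_mem _]
  refine sum_eq_zero fun c _ => ?_
  rw [sum_congr rfl (g := fun i => y i * c ^ t) fun i hi => by rw [(mem_filter.1 hi).2],
    ← sum_mul, h, zero_mul]

theorem LAG {R V : Type*} [CommRing R] [AddCommGroup V] [Module R V] {N : Submodule R V}
    {ρ : ℕ → V} {c : V} {a : ℕ → R} {s : ℕ} (ha : a s = 1) (h1 : ∀ t < s, ρ t ∈ N)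
    (h2 : ρ s - c ∈ N) : ∑ t ∈ range (s + 1), a t • ρ t - c ∈ N := by
  rw [sum_range_succ, ha, one_smul, add_sub_assoc]
  exact add_mem (sum_mem fun t ht => N.smul_mem _ (h1 t (mem_range.1 ht))) h2

namespace Dat

variable {σ ι β : Type} (D : Dat σ ι β) [Fintype ι] [LinearOrder ι]

open Classical in
noncomputable def blk (B : β) : Finset ι := {k | D.b k = B}

noncomputable abbrev n (B : β) : ℕ := #(D.blk B)

noncomputable def pos (k : ι) : ℕ := #{l ∈ D.blk (D.b k) | l < k}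

noncomputable abbrev u (i : ι) : MvPolynomial σ ℂ := D.x i ^ D.m (D.b i)

open Classical in
noncomputable def Row (B : β) (t : ℕ) (l : ι) : MvPolynomial σ ℂ :=
  if D.b l = B then if D.fl B then D.x l * D.u l ^ t else if t = 0 then
    ∏ j ∈ (D.blk B).erase l, D.x j else D.x l ^ (D.m B - 1) * D.u l ^ (t - 1) else 0

open Classical in
noncomputable def E (B : β) (t : ℕ) : ℕ :=
  if D.fl B then 1 + D.m B * t else if t = 0 then D.n B - 1 else D.m B - 1 + D.m B * (t - 1)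

open Classical in
noncomputable def γ (i : ι) : ι → ℕ :=
  (if D.fl (D.b i) then 0 else D.wt i) + D.dQ fun p => p.1 ≠ i ∧ p.2 ≠ i

noncomputable abbrev ν : ι → ℕ := D.dQ fun _ => True

noncomputable abbrev h (i : ι) : ℕ := D.E (D.b i) (D.n (D.b i) - 1)

noncomputable def g (c : ι → ℂ) (i : ι) : MvPolynomial σ ℂ := C (c i) * (D.ε i * D.gt i)

noncomputable def M (k0 : ι) : Matrix ι ι (MvPolynomial σ ℂ) := fun k =>
  if D.pos k + 1 = D.n (D.b k) ∧ k ≠ k0 then D.Row (D.b k) (D.pos k) - D.Row (D.b k0) (D.pos k0)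
  else D.Row (D.b k) (D.pos k)

variable {D} {i k l k0 : ι} {B : β} {t : ℕ} {c : ι → ℂ}

omit [LinearOrder ι] in
@[simp] theorem mem_blk : k ∈ D.blk B ↔ D.b k = B := by simp only [blk, mem_filter, mem_univ, true_and]

theorem pos_mono (h : D.b l = D.b k) (o : l < k) : D.pos l < D.pos k := by
  refine card_lt_card ((ssubset_iff_of_subset fun j => ?_).2 ⟨l, ?_⟩)
  · simp only [mem_filter, h]; exact fun h => ⟨h.1, h.2.trans o⟩
  · simp [h, o]

theorem pos_lt (k : ι) : D.pos k < D.n (D.b k) :=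
  card_lt_card ((ssubset_iff_of_subset (filter_subset _ _)).2 ⟨k, by simp⟩)

theorem pos_inj (h : D.b l = D.b k) (e : D.pos l = D.pos k) : l = k := by
  rcases lt_trichotomy l k with o | o | o
  exacts [absurd e (pos_mono h o).ne, o, absurd e (pos_mono h.symm o).ne']

theorem pos_injOn (B : β) : Set.InjOn D.pos (D.blk B) := fun _ h _ h' =>
  pos_inj ((mem_blk.1 h).trans (mem_blk.1 h').symm)

theorem pos_image (B : β) : (D.blk B).image D.pos = range (D.n B) := by
  refine eq_of_subset_of_card_le (fun t ht => ?_)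
    (by rw [card_image_of_injOn (pos_injOn B), card_range])
  obtain ⟨k, hk, rfl⟩ := mem_image.1 ht
  exact mem_range.2 (mem_blk.1 hk ▸ pos_lt k)

theorem pos_surj (ht : t < D.n B) : ∃ k, D.b k = B ∧ D.pos k = t := by
  simpa only [← pos_image, mem_image, mem_blk] using mem_range.2 ht

theorem sum_blk (j : ι) (f : β → ℕ → ℕ) :
    ∑ k, f (D.b k) (D.pos k) * D.wt k j = ∑ t ∈ range (D.n (D.b j)), f (D.b j) t := by
  rw [← pos_image, sum_image (pos_injOn _), blk, sum_filter]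
  refine sum_congr rfl fun k _ => ?_
  unfold wt
  split_ifs with h <;> simp [h]

omit [LinearOrder ι] in
theorem two_le (hS : D.Std) (h : ¬ D.fl (D.b i)) : 2 ≤ D.m (D.b i) ∧ 2 ≤ D.n (D.b i) := by
  obtain ⟨h1, j, h2, h3⟩ := (hS i).2 h
  exact ⟨h1, one_lt_card.2 ⟨j, by simpa, i, by simp, h2⟩⟩

omit [LinearOrder ι] in
theorem E_pos (hS : D.Std) (i : ι) (t : ℕ) : 0 < D.E (D.b i) t := by
  unfold E
  split_ifs with h
  · omega
  all_goals have := two_le hS h; omega

omit [Fintype ι] [LinearOrder ι] in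
theorem u_WH (h : D.b l = D.b k) : IsWeightedHomogeneous D.W (D.u l) (D.m (D.b k) • D.wt k) := by
  simpa only [u, h, nsmul_eq_mul, wt_eq h] using (x_WH (D := D) l).pow (D.m (D.b l))

theorem Row_WH (l : ι) (t : ℕ) :
    IsWeightedHomogeneous D.W (D.Row (D.b l) t l) (D.E (D.b l) t • D.wt l) := by
  unfold Row E
  rw [if_pos rfl]
  split_ifs
  · convert (x_WH l).mul ((u_WH rfl).pow t) using 1
    rw [add_smul, one_smul, mul_comm, mul_smul]
  · simpa only [nsmul_eq_mul, Nat.cast_tsub, Nat.cast_one, sum_const, mem_blk, card_erase_of_mem] using IsWeightedHomogeneous.prod ((D.blk (D.b l)).erase l) D.x (fun _ => D.wt l)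
      fun j hj => wt_eq (mem_blk.1 (mem_of_mem_erase hj)) ▸ x_WH j
  · convert ((x_WH l).pow _).mul ((u_WH rfl).pow (t - 1)) using 1
    rw [add_smul, mul_comm, mul_smul]

open Classical in
theorem prod_U (hS : D.Std) (i : ι) : ∏ l, D.U i l = (if D.fl (D.b i) then D.x i else 1) *
    ∏ j ∈ (D.blk (D.b i)).erase i, (D.u i - D.u j) := by
  rw [← mul_prod_erase _ _ (mem_univ i), blk, ← filter_erase, prod_filter]
  congr 1
  · unfold U Z; split_ifs <;> simp_all [fm]
  · refine prod_congr rfl fun j hj => ?_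
    have hj := (mem_erase.1 hj).1.symm
    split_ifs with h
    · rw [U_eq hS hj h, u, u, h]
    · simp [U, Z, hj, h]

theorem g_WH (hS : D.Std) (i : ι) : IsWeightedHomogeneous D.W (D.g c i) (D.γ i) := by
  refine (IsWeightedHomogeneous.mul ?_ (PQ_WH hS)).C_mul _
  unfold ε
  split_ifs
  exacts [isWeightedHomogeneous_one _ _, x_WH i]

theorem γ_add (hS : D.Std) (i : ι) : D.γ i + D.h i • D.wt i = D.ν := by
  obtain ⟨c, -, hc⟩ := Q_eq hS i
  have h1 := IsWeightedHomogeneous.prod ((D.blk (D.b i)).erase i) (fun j => D.u i - D.u j) _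
    fun j hj => (u_WH rfl).sub (u_WH (mem_blk.1 (mem_of_mem_erase hj)))
  have h2 := PQ_WH (P := fun _ => True) hS
  have h3 := PQ_ne (P := fun _ => True) hS
  have h4 := (PQ_WH (P := fun p => p.1 ≠ i ∧ p.2 ≠ i) hS).C_mul c
  rw [prod_U hS] at hc
  rw [sum_const, card_erase_of_mem (by simp)] at h1
  unfold γ h E
  split_ifs at hc ⊢ with h5 h6
  · rw [ν, h2.inj_right h3 (by convert h4.mul ((x_WH i).mul h1) using 1), add_smul, mul_comm,
      mul_smul, one_smul, zero_add]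
  · have := two_le hS h5; omega
  · rw [ν, h2.inj_right h3 (by convert h4.mul h1 using 1; simpa only [ne_eq, one_mul] using hc), ← mul_smul]
    obtain ⟨h7, h8⟩ := two_le hS h5
    obtain ⟨a, ha⟩ := Nat.exists_eq_add_of_le' h7
    obtain ⟨b, hb⟩ := Nat.exists_eq_add_of_le' h8
    unfold n at hb
    ext j
    simp only [ne_eq, ha, Nat.add_one_sub_one, hb, add_tsub_cancel_right, nsmul_eq_mul, Nat.cast_add, Nat.cast_one, Nat.cast_mul, Nat.cast_ofNat, Pi.add_apply, Pi.mul_apply, Pi.natCast_apply, Nat.cast_id, Pi.one_apply, Pi.ofNat_apply]; ring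

theorem arith (hS : D.Std) (j : ι) : ∑ k, D.E (D.b k) (D.pos k) * D.wt k j = D.ν j ∧
    2 * D.ν j = D.n (D.b j) * (D.h j + 1) := by
  classical
  have h1 : D.ν j = ∑ t ∈ range (D.n (D.b j)),
      ((if D.fl (D.b j) then 1 else 0) + D.m (D.b j) * t) := by
    rw [← sum_blk j fun B t => (if D.fl B then 1 else 0) + D.m B * t, ν, dQ, Finset.sum_apply,
      sum_filter, Fintype.sum_prod_type]
    refine sum_congr rfl fun k _ => ?_
    rw [← add_sum_erase _ _ (mem_univ k), add_mul, pos, blk, filter_filter, card_eq_sum_ones (filter _ _),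
      mul_sum, sum_mul, sum_filter, ← add_sum_erase _ _ (mem_univ k)]
    congr 1
    · simp only [Z]; split_ifs <;> simp_all
    simp only [lt_irrefl, and_false, if_false, zero_add]
    refine sum_congr rfl fun l hl => ?_
    have hl := (mem_erase.1 hl).1
    by_cases h : D.b l = D.b k <;> simp [Z, hl.symm, h, lt_iff_le_and_ne, hl,
      (Complex.isPrimitiveRoot_exp _ (hS k).1.ne').card_nthRootsFinset]
  have h2 := sum_range_id_mul_two (D.n (D.b j))
  rw [sum_blk j D.E, h1, sum_add_distrib, ← mul_sum]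
  obtain ⟨a, ha⟩ := Nat.exists_eq_add_of_le' (Nat.one_le_of_lt (pos_lt (D := D) j))
  unfold h E
  split_ifs with h3 h4
  · rw [sum_add_distrib, ← mul_sum]
    simp only [ha, add_tsub_cancel_right, sum_const, card_range, smul_eq_mul, true_and] at h2 ⊢
    linear_combination D.m (D.b j) * h2
  · have := two_le hS h3; omega
  · obtain ⟨b, hb⟩ := Nat.exists_eq_add_of_le' (two_le hS h3).1
    obtain ⟨a, rfl⟩ := Nat.exists_eq_add_one_of_ne_zero (n := a) (by omega)
    simp only [ha, hb, add_tsub_cancel_right, sum_const_zero, zero_add] at h2 ⊢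
    refine ⟨?_, by simp only [Nat.add_one_sub_one]; linear_combination (b + 2) * h2⟩
    simp only [sum_range_succ' _ (a + 1), mul_add, mul_sum]
    simp [sum_add_distrib]; ring

theorem Row_mem (B : β) (t : ℕ) :
    (t + 1 < D.n B → D.Row B t ∈ Submodule.span (MvPolynomial σ ℂ) (D.M k0 '' {k | k ≠ k0}) ∨
      B = D.b k0 ∧ t = D.pos k0) ∧ (t + 1 = D.n B → D.Row B t - D.Row (D.b k0) (D.pos k0) ∈
      Submodule.span (MvPolynomial σ ℂ) (D.M k0 '' {k | k ≠ k0})) := by
  refine ⟨fun h => ?_, fun h => ?_⟩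
  all_goals
    obtain ⟨k, rfl, rfl⟩ := pos_surj (D := D) (B := B) (t := t) (by omega)
    by_cases hk : k = k0
  · simp [hk]
  · exact Or.inl (Submodule.subset_span ⟨k, hk, by simp [M, h.ne]⟩)
  · simp [hk]
  · exact Submodule.subset_span ⟨k, hk, by simp [M, h, hk]⟩

theorem hΛ (hS : D.Std) (h0 : D.pos k0 + 1 = D.n (D.b k0))
    (hc : D.Q = C (c l) * D.gt l * ∏ j, D.U l j) : Pi.single l D.Q - D.g c l • D.M k0 k0 ∈
      Submodule.span (MvPolynomial σ ℂ) (D.M k0 '' {k | k ≠ k0}) := by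
  set N := Submodule.span (MvPolynomial σ ℂ) (D.M k0 '' {k | k ≠ k0})
  have r1 : ∀ t, t + 1 < D.n (D.b l) → D.Row (D.b l) t ∈ N := fun t ht =>
    ((Row_mem _ t).1 ht).resolve_right (by rintro ⟨h1, rfl⟩; rw [h1] at ht; omega)
  have r2 : ∀ t, t + 1 = D.n (D.b l) → D.Row (D.b l) t - D.M k0 k0 ∈ N := fun t ht => by
    rw [show D.M k0 k0 = D.Row (D.b k0) (D.pos k0) by simp [M]]
    exact (Row_mem _ t).2 ht
  suffices h : Pi.single l (∏ j, D.U l j) - D.ε l • D.M k0 k0 ∈ N by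
    convert N.smul_mem (C (c l) * D.gt l) h using 1
    rw [smul_sub, ← Pi.single_smul', smul_smul, smul_eq_mul, ← hc, g]
    congr 2; ring
  let P := ∏ j ∈ (D.blk (D.b l)).erase l, (Polynomial.X - Polynomial.C (D.u j))
  have p1 : P.natDegree + 1 = D.n (D.b l) := by
    rw [Polynomial.natDegree_finset_prod_X_sub_C_eq_card, card_erase_add_one (by simp)]
  have p2 : P.coeff P.natDegree = 1 := Polynomial.monic_prod_X_sub_C _ _
  have p3 : ∀ i, D.b i = D.b l → ∑ t ∈ range (P.natDegree + 1), P.coeff t * D.u i ^ t =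
      (Pi.single l (∏ j ∈ (D.blk (D.b l)).erase l, (D.u l - D.u j)) : ι → _) i := fun i hi => by
    rw [← Polynomial.eval_eq_sum_range, Polynomial.eval_prod]
    by_cases h : i = l
    · simp [h]
    · rw [Pi.single_eq_of_ne h]
      exact prod_eq_zero (i := i) (by simp [h, hi]) (by simp)
  rw [prod_U hS, ε]
  split_ifs with hf
  · convert LAG p2 (fun t ht => r1 t (by omega)) (r2 _ p1) using 2
    · ext1 i
      by_cases hi : D.b i = D.b l
      · simp only [Finset.sum_apply, Pi.smul_apply, smul_eq_mul, Row, hi, hf, if_true,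
          mul_left_comm (P.coeff _), ← mul_sum, p3 i hi]
        by_cases h : i = l <;> simp [h]
      · simp [Row, hi, Pi.single_eq_of_ne (show i ≠ l by rintro rfl; exact hi rfl)]
    · simp
  · obtain ⟨h1, h2⟩ := two_le hS hf
    obtain ⟨s, hs⟩ := Nat.exists_eq_add_one_of_ne_zero (n := P.natDegree) (by omega)
    rw [hs] at p1 p2 p3
    have := add_mem (N.smul_mem (D.x l) (LAG (a := fun t => P.coeff (t + 1))
      (ρ := fun t => D.Row (D.b l) (t + 1)) p2 (fun t ht => r1 _ (by omega)) (r2 _ p1)))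
      (N.smul_mem (∏ j ∈ (D.blk (D.b l)).erase l, -D.x j ^ (D.m (D.b l) - 1)) (r1 0 h2))
    rw [smul_sub, sub_add_eq_add_sub] at this
    convert this using 2
    ext1 i
    by_cases hi : D.b i = D.b l
    swap
    · simp only [one_mul, Pi.single_eq_of_ne (show i ≠ l by rintro rfl; exact hi rfl), Pi.add_apply, Pi.smul_apply, Finset.sum_apply, Row, hi, ↓ reduceIte, smul_eq_mul, mul_zero, sum_const_zero, add_zero]
    have e1 : ∀ j, D.b j = D.b l → D.x j * D.x j ^ (D.m (D.b l) - 1) = D.u j := fun j hj => by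
      rw [u, hj, mul_pow_sub_one (by omega)]
    have e2 : D.x i * ∏ j ∈ (D.blk (D.b l)).erase i, D.x j =
        D.x l * ∏ j ∈ (D.blk (D.b l)).erase l, D.x j := by
      rw [mul_prod_erase _ _ (by simpa only [mem_blk]), mul_prod_erase _ _ (by simp)]
    have e3 : P.coeff 0 = (∏ j ∈ (D.blk (D.b l)).erase l, -D.x j ^ (D.m (D.b l) - 1)) *
        ∏ j ∈ (D.blk (D.b l)).erase l, D.x j := by
      rw [Polynomial.coeff_zero_eq_eval_zero, Polynomial.eval_prod, ← prod_mul_distrib]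
      refine prod_congr rfl fun j hj => ?_
      simp [← e1 j (mem_blk.1 (mem_of_mem_erase hj)), mul_comm]
    have e4 := p3 i hi
    rw [sum_range_succ', e3] at e4
    refine mul_left_cancel₀ (X_ne_zero (D.v i)) ?_
    simp only [Finset.sum_apply, Pi.smul_apply, Pi.add_apply, smul_eq_mul, Row, hi, hf, if_true,
      if_false, Nat.add_one_ne_zero, add_tsub_cancel_right, one_mul]
    have e5 : D.x i * ∑ t ∈ range (s + 1), P.coeff (t + 1) * (D.x i ^ (D.m (D.b l) - 1) *
        D.u i ^ t) = ∑ t ∈ range (s + 1), P.coeff (t + 1) * D.u i ^ (t + 1) := by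
      rw [mul_sum]
      exact sum_congr rfl fun t _ => by rw [pow_succ', ← e1 i hi]; ring
    have e6 : ∀ a, D.x i * (Pi.single l a : ι → _) i = D.x l * (Pi.single l a : ι → _) i :=
      fun a => by by_cases h : i = l <;> simp [h]
    rw [e6, ← e4, ← e5]
    linear_combination (exp := 1) -(∏ j ∈ (D.blk (D.b l)).erase l, -D.x j ^ (D.m (D.b l) - 1)) * e2

end Dat

end Pool.Agent.H76m

/-! Primes over the relations and the upper bound for the socle degrees. -/

namespace Pool.Agent.H76m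

open Ideal MvPolynomial Finset

theorem exists_rep {α γ : Type*} (lab : α → γ) : ∃ rep : α → α,
    (∀ i, lab (rep i) = lab i) ∧ ∀ i j, lab i = lab j → rep i = rep j :=
  ⟨fun i => Set.rangeSplitting lab ⟨lab i, i, rfl⟩, fun _ => Set.apply_rangeSplitting _ _,
    fun _ _ h => by simp only [h]⟩

namespace Dat

variable {σ ι β : Type} {D : Dat σ ι β} [Fintype ι] [LinearOrder ι]
  {i k l k0 : ι} {B : β} {t : ℕ} {c : ι → ℂ}

open Classical in
theorem BLOCK (hS : D.Std) {L : Type*} [Field L] (φ : MvPolynomial σ ℂ →+* L) (T : ι → L) (i : ι)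
    {d : ℕ} (hrow : ∀ t < d, ∑ l, φ (D.Row (D.b i) t l) * T l = 0)
    (hd : d = D.n (D.b i) ∨ d + 1 = D.n (D.b i) ∧
      ∃ k l ζ, D.Hyp k l ζ ∧ D.b k = D.b i ∧ φ (D.fm k l ζ) = 0) :
    (∀ a, ∑ l ∈ D.blk (D.b i) with φ (D.u l) = a,
      φ (D.x l) ^ (if D.fl (D.b i) then 1 else D.m (D.b i) - 1) * T l = 0) ∧
    ∑ l, φ (D.Row (D.b i) (D.n (D.b i) - 1) l) * T l = 0 := by
  have rs : ∀ t, ∑ l, φ (D.Row (D.b i) t l) * T l =
      ∑ l ∈ D.blk (D.b i), φ (D.Row (D.b i) t l) * T l := fun t =>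
    (sum_subset (subset_univ _) fun l _ hl => by simp [Row, mt mem_blk.2 hl]).symm
  simp only [rs] at hrow ⊢
  have hu : ∀ {k l ζ}, D.Hyp k l ζ → φ (D.fm k l ζ) = 0 → φ (D.x k) = φ (C ζ) * φ (D.x l) ∧
      (φ (D.x k) ≠ 0 → k ≠ l ∧ φ (D.u l) = φ (D.u k)) := fun {k l ζ} h h0 => by
    rw [fm, map_sub, map_mul, sub_eq_zero] at h0
    refine ⟨h0, fun h1 => ?_⟩
    rcases h.2 with ⟨h2, h3⟩ | ⟨-, rfl, -⟩
    · refine ⟨h2, ?_⟩
      rw [u, u, map_pow, map_pow, h0, mul_pow, ← map_pow φ (C ζ), ← map_pow C, h3, h.1]; simp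
    · simp [h0] at h1
  obtain ⟨E, e1, e2, e3⟩ : ∃ E ⊆ D.blk (D.b i), D.n (D.b i) ≤ d + #E ∧ ∀ k ∈ E, φ (D.x k) ≠ 0 →
      ∃ j ∈ D.blk (D.b i), j ∉ E ∧ φ (D.u j) = φ (D.u k) := by
    rcases hd with rfl | ⟨h1, k, l, ζ, h2, h3, h4⟩
    · exact ⟨∅, by simp only [empty_subset, card_empty, add_zero, Std.le_refl, notMem_empty, ne_eq, mem_blk, not_false_eq_true, map_pow, true_and, IsEmpty.forall_iff, implies_true, and_self]⟩
    · refine ⟨{k}, by simpa, by simp [h1], ?_⟩
      simp only [mem_singleton, forall_eq]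
      exact fun h => ⟨l, by simp [h2.1, h3], ((hu h2 h4).2 h).1.symm, ((hu h2 h4).2 h).2⟩
  by_cases hf : D.fl (D.b i)
  · have r : ∀ t, ∑ l ∈ D.blk (D.b i), φ (D.Row (D.b i) t l) * T l =
        ∑ l ∈ D.blk (D.b i), φ (D.x l) * T l * φ (D.u l) ^ t := fun t =>
      sum_congr rfl fun l hl => by simp [Row, mem_blk.1 hl, hf, mul_right_comm]
    simp only [r, hf, if_true, pow_one] at hrow ⊢
    have := VAN e1 e2 (fun _ _ h => by simp [h]) e3 hrow
    exact ⟨this, VAN' this _⟩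
  obtain ⟨m2, n2⟩ := two_le hS hf
  have r : ∀ t, ∑ l ∈ D.blk (D.b i), φ (D.Row (D.b i) (t + 1) l) * T l =
      ∑ l ∈ D.blk (D.b i), φ (D.x l) ^ (D.m (D.b i) - 1) * T l * φ (D.u l) ^ t := fun t =>
    sum_congr rfl fun l hl => by simp [Row, mem_blk.1 hl, hf, mul_right_comm]
  simp only [hf, if_false]
  suffices h : _ from ⟨h, by
    rw [show D.n (D.b i) - 1 = D.n (D.b i) - 2 + 1 by omega, r]; exact VAN' h _⟩
  by_cases hz : ∃ z ∈ D.blk (D.b i), φ (D.x z) = 0
  · obtain ⟨z, z1, z2⟩ := hz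
    obtain ⟨E, e1, e2, e3⟩ : ∃ E ⊆ D.blk (D.b i), D.n (D.b i) ≤ d - 1 + #E ∧ ∀ k ∈ E,
        φ (D.x k) ≠ 0 → ∃ j ∈ D.blk (D.b i), j ∉ E ∧ φ (D.u j) = φ (D.u k) := by
      rcases hd with rfl | ⟨h1, k, l, ζ, h2, h3, h4⟩
      · exact ⟨{z}, by simpa using z1, by simp only [card_singleton]; omega, by simp only [mem_singleton, ne_eq, mem_blk, map_pow, forall_eq, z2, not_true_eq_false, IsEmpty.forall_iff]⟩
      have hk : k ≠ l := fun h => hf (h3 ▸ (h2.2.resolve_left fun h' => h'.1 h).2.2)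
      have h5 : φ (C ζ) ≠ 0 := (((h2.ne hS hk).isUnit.map C).map φ).ne_zero
      obtain ⟨h6, h7⟩ := hu h2 h4
      by_cases h0 : φ (D.x k) = 0
      · refine ⟨{k, l}, by simp [insert_subset_iff, h3, h2.1], by rw [card_pair hk]; omega, ?_⟩
        simp only [mem_insert, mem_singleton, ne_eq, mem_blk, not_or, map_pow, forall_eq_or_imp, h0, not_true_eq_false, IsEmpty.forall_iff, forall_eq, (mul_eq_zero.1 (h6.symm.trans h0)).resolve_left h5, and_self]
      · refine ⟨{k, z}, by simpa [insert_subset_iff, h3] using z1,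
          by rw [card_pair (by rintro rfl; exact h0 z2)]; omega, ?_⟩
        simp only [mem_insert, mem_singleton, forall_eq_or_imp, forall_eq, z2]
        refine ⟨fun _ => ⟨l, by simp [h2.1, h3], ?_, (h7 h0).2⟩, by simp only [ne_eq, not_true_eq_false, mem_blk, not_or, map_pow, IsEmpty.forall_iff]⟩
        rintro (rfl | rfl)
        exacts [hk rfl, h0 (by rw [h6, z2, mul_zero])]
    exact VAN e1 e2 (fun _ _ h => by simp [h, show D.m (D.b i) - 1 ≠ 0 by omega]) e3
      fun t ht => r t ▸ hrow _ (by omega)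
  push Not at hz
  have e4 : ∀ l ∈ D.blk (D.b i), (∏ j ∈ (D.blk (D.b i)).erase l, φ (D.x j)) * φ (D.u l) =
      (∏ j ∈ D.blk (D.b i), φ (D.x j)) * φ (D.x l) ^ (D.m (D.b i) - 1) := fun l hl => by
    rw [← prod_erase_mul _ _ hl, mul_assoc, mul_pow_sub_one (by omega), u, mem_blk.1 hl, map_pow]
  intro a
  have := VAN (y := fun l => (∏ j ∈ (D.blk (D.b i)).erase l, φ (D.x j)) * T l) e1 e2
    (fun l hl h => absurd h (hz l hl)) e3 (by
      rintro (_ | t) ht
      · rw [← hrow 0 ht]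
        exact sum_congr rfl fun l hl => by simp [Row, mem_blk.1 hl, hf]
      · rw [← mul_zero (∏ j ∈ D.blk (D.b i), φ (D.x j)), ← hrow _ ht, r, mul_sum]
        exact sum_congr rfl fun l hl => by linear_combination T l * φ (D.u l) ^ t * e4 l hl) a
  refine mul_left_cancel₀ (prod_ne_zero_iff.2 hz) ?_
  rw [mul_zero, ← mul_zero a, ← this, mul_sum, mul_sum]
  refine sum_congr rfl fun l hl => ?_
  rw [mem_filter] at hl
  linear_combination -T l * e4 l hl.1 +
    (∏ j ∈ (D.blk (D.b i)).erase l, φ (D.x j)) * T l * hl.2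

theorem hp (hS : D.Std) (h0 : D.pos k0 + 1 = D.n (D.b k0)) (p : Ideal (MvPolynomial (σ ⊕ ι) ℂ))
    (hp : p.IsPrime) (h1 : ∀ k ≠ k0, lam (D.M k0 k) ∈ p) (h2 : rename Sum.inl D.Q ∈ p) :
    G p (Fintype.card ι) ⊥ := by
  classical
  let f := algebraMap (MvPolynomial (σ ⊕ ι) ℂ) p.ResidueField
  have hf : ∀ a, f a = 0 ↔ a ∈ p := fun a => Ideal.algebraMap_residueField_eq_zero
  let φ := f.comp (rename (R := ℂ) (Sum.inl : σ → σ ⊕ ι)).toRingHom
  let T := fun l => f (X (Sum.inr l))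
  have hl : ∀ y, f (lam y) = ∑ l, φ (y l) * T l := fun y => by simp only [lam, map_sum, map_mul, φ, AlgHom.toRingHom_eq_coe, RingHom.coe_comp, RingHom.coe_coe, Function.comp_apply, T]
  have hN : ∀ y ∈ Submodule.span _ (D.M k0 '' {k | k ≠ k0}), ∑ l, φ (y l) * T l = 0 :=
    fun y hy => by
      rw [← hl, hf]; exact lam_mem (by rintro _ ⟨k, hk, rfl⟩; exact h1 k hk) hy
  have r1 : ∀ B t, t + 1 < D.n B → ∑ l, φ (D.Row B t l) * T l = 0 := fun B t ht =>
    hN _ (((Row_mem _ t).1 ht).resolve_right (by rintro ⟨rfl, rfl⟩; omega))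
  have r2 : ∀ B t, t + 1 = D.n B → ∑ l, φ (D.Row B t l) * T l =
      ∑ l, φ (D.Row (D.b k0) (D.pos k0) l) * T l := fun B t ht => by
    simpa only [Pi.sub_apply, map_sub, sub_mul, sum_sub_distrib, sub_eq_zero] using hN _ ((Row_mem _ t).2 ht)
  obtain ⟨k, l, ζ, a1, -, -, a2⟩ := PQ_zero hS φ ((hf _).2 h2)
  have := pos_lt (D := D) k
  have r3 := (BLOCK hS φ T k (fun t (ht : t < D.n (D.b k) - 1) => r1 _ t (by omega))
    (Or.inr ⟨by omega, k, l, ζ, a1, rfl, a2⟩)).2
  rw [r2 _ _ (by omega)] at r3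
  have cs := fun i => (BLOCK hS φ T i (fun t (ht : t < D.n (D.b i)) =>
    (Nat.lt_or_eq_of_le ht).elim (r1 _ t) fun h => (r2 _ t h).trans r3) (Or.inl rfl)).1
  obtain ⟨rep, b1, b2⟩ := exists_rep fun i => (D.b i, φ (D.u i))
  simp only [Prod.mk.injEq] at b1 b2
  have b3 : ∀ i, rep (rep i) = rep i := fun i => b2 _ _ (b1 i)
  have b4 : ∀ i, φ (D.x i) ≠ 0 → φ (D.x (rep i)) ≠ 0 := fun i hi h => by
    have := (b1 i).2
    simp [u, h, (hS _).1.ne', (pow_ne_zero _ hi).symm] at this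
  have : ∀ i, ∃ ζ : ℂ, φ (D.x i) = φ (C ζ) * φ (D.x (rep i)) := fun i => by
    by_cases h : i = rep i
    · exact ⟨1, by simp [← h]⟩
    have : φ (D.U i (rep i)) = 0 := by
      rw [U_eq hS h (b1 i).1, map_sub, sub_eq_zero, ← (b1 i).2, u, (b1 i).1]
    simp only [U, map_prod, prod_eq_zero_iff, fm, map_sub, map_mul, sub_eq_zero] at this
    exact this.imp fun _ h => h.2
  choose z hz using this
  let e := fun i => if D.fl (D.b i) then 1 else D.m (D.b i) - 1
  let pv : ι → σ ⊕ ι := fun i => if φ (D.x i) ≠ 0 ∧ rep i = i then .inr i else .inl (D.v i)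
  let h : ι → MvPolynomial (σ ⊕ ι) ℂ := fun i => if φ (D.x i) = 0 then 0 else if rep i = i then
    -∑ j ∈ ({j ∈ D.blk (D.b i) | φ (D.u j) = φ (D.u i)}).erase i, C (z j) ^ e i * X (.inr j)
    else C (z i) * X (.inl (D.v (rep i)))
  have := PIV (pv := pv) (h := h) (p := p) (fun i j => by
    simp only [pv]; split_ifs <;> simp [D.hv.eq_iff]) (fun i => by
    simp only [h]
    split_ifs with c1 c2
    · simp
    · refine neg_mem (sum_mem fun j hj => mul_mem (pow_mem (Subalgebra.algebraMap_mem _ _) _)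
        (X_mem_supported.2 ?_))
      simp only [mem_erase, mem_filter, mem_blk] at hj
      rintro ⟨s, hs⟩
      simp only [pv] at hs
      split_ifs at hs with c3
      obtain rfl := Sum.inr_injective hs
      exact hj.1 (c3.2.symm.trans ((b2 _ _ hj.2).trans c2))
    · refine mul_mem (Subalgebra.algebraMap_mem _ _) (X_mem_supported.2 ?_)
      rintro ⟨s, hs⟩
      simp only [pv] at hs
      split_ifs at hs with c3
      obtain rfl := D.hv (Sum.inl_injective hs)
      exact c3 ⟨b4 i c1, b3 i⟩) (fun i => by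
    have x1 : ∀ j, f (X (.inl (D.v j))) = φ (D.x j) := fun j => by simp [φ]
    have x2 : ∀ a, f (C a) = φ (C a) := fun a => by simp only [φ, AlgHom.toRingHom_eq_coe, RingHom.coe_comp, RingHom.coe_coe, Function.comp_apply, algHom_C, algebraMap_eq]
    rw [← hf]
    simp only [h, pv]
    by_cases c1 : φ (D.x i) = 0
    · simp [c1, x1]
    by_cases c2 : rep i = i
    · have := cs i (φ (D.u i))
      rw [← add_sum_erase _ _ (a := i) (by simp only [map_pow, mem_filter, mem_blk, and_self])] at this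
      refine mul_left_cancel₀ (pow_ne_zero (e i) c1) ?_
      simp only [c1, c2, ne_eq, not_false_iff, and_self, if_true, if_false, sub_neg_eq_add, map_add,
        map_sum, map_mul, map_pow, x2, mul_add, mul_sum, mul_zero]
      rw [← this]
      congr 1
      refine sum_congr (by simp only [map_pow]) fun j hj => ?_
      simp only [mem_erase, mem_filter, mem_blk] at hj
      rw [hz j, b2 _ _ hj.2, c2]; ring
    · simp only [ne_eq, c1, not_false_eq_true, c2, and_false, ↓ reduceIte, map_sub, x1, map_mul, x2, ← hz, sub_self]) univ.toList [] (by simpa only [List.append_nil] using nodup_toList _)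
  rwa [SP_nil, length_toList] at this

theorem exists_top (i : ι) : ∃ k, D.pos k + 1 = D.n (D.b k) := by
  have := pos_lt (D := D) i
  obtain ⟨k, h1, h2⟩ := pos_surj (D := D) (B := D.b i) (t := D.n (D.b i) - 1) (by omega)
  exact ⟨k, by rw [h1]; omega⟩

theorem gI_eq (hS : D.Std) (hc : ∀ l, c l ≠ 0 ∧ D.Q = C (c l) * D.gt l * ∏ j, D.U l j) (i : ι) :
    D.gI = span (Set.range (D.g c)) := by
  obtain ⟨k0, h0⟩ := exists_top (D := D) i
  refine le_antisymm (span_le.2 ?_) (span_le.2 ?_)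
  · rintro f (hf | ⟨l, h, rfl, hf⟩)
    · have := PQ_dvd (P := fun _ => True) hS (a := 1) (f := f) fun k l ζ h _ _ => by
        simpa only [pow_one] using hf _ ⟨k, l, ζ, h, rfl⟩
      refine mem_of_dvd _ (pow_one D.Q ▸ this) ?_
      have := LIN (PQ_ne hS) (fun l => hΛ hS h0 (hc l).2) k0
      rw [if_pos rfl] at this
      rw [Q, ← this]
      exact sum_mem fun l _ => mul_mem_left _ _ (subset_span ⟨l, rfl⟩)
    · refine mem_of_dvd _ ((assocC (hc l).1 _).dvd.trans (mul_dvd_mul_left _ ?_))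
        (subset_span ⟨l, rfl⟩)
      simpa only [ne_eq, pow_one] using PQ_dvd (P := fun p => p.1 ≠ l ∧ p.2 ≠ l) hS (a := 1) (f := h)
        fun k l ζ h _ h' => by simpa only [pow_one] using hf _ _ _ h h'.1 h'.2
  · rintro _ ⟨l, rfl⟩
    exact mul_mem_left _ _ (subset_span (Or.inr ⟨l, _, rfl, fun k j ζ h h1 h2 =>
      dvd_PQ hS h ⟨h1, h2⟩ ⟨h2, h1⟩⟩))

theorem UB [Finite σ] (hS : D.Std) (i : ι) {Mx : ι → ℕ} (hM : ∀ l, D.γ l ≤ Mx) {F w} {r : ℕ}
    (hF : IsWeightedHomogeneous D.W F w) (hx : ∀ i, D.x i * F ∈ D.gI ^ r) (hn : F ∉ D.gI ^ r) :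
    ∃ n, n + Fintype.card ι = r + 1 ∧
      ∀ j, w j + 2 * D.ν j ≤ Fintype.card ι * D.ν j + n * Mx j := by
  classical
  choose c hc using Q_eq hS
  rw [gI_eq hS hc i] at hx hn
  obtain ⟨k0, h1⟩ := exists_top (D := D) i
  have h0 := Nat.eq_sub_of_add_eq h1
  obtain ⟨l0, ζ, hy⟩ : ∃ l ζ, D.Hyp k0 l ζ := by
    by_cases hf : D.fl (D.b k0)
    · exact ⟨k0, 0, rfl, Or.inr ⟨rfl, rfl, hf⟩⟩
    · obtain ⟨-, j, h1, h2⟩ := (hS k0).2 hf
      exact ⟨j, 1, h2, Or.inl ⟨h1.symm, one_pow _⟩⟩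
  have wne : ∀ l t, D.E (D.b l) t • D.wt l ≠ 0 := fun l t h => by
    simpa [wt, (E_pos hS l t).ne'] using congrFun h l
  have γe : ∀ {k l}, D.b l = D.b k → D.γ l = D.γ k := fun {k l} h => by
    refine add_right_cancel ((γ_add hS l).trans ?_)
    rw [← γ_add hS k, wt_eq h, Dat.h, Dat.h, h]
  obtain ⟨n, h2, h3⟩ := ABS (W := D.W) W_free (PQ_ne hS) (fun l => hΛ hS h1 (hc l).2)
    (hp hS h1) (g_WH hS) hM (δ := fun k => if k = k0 then D.wt k0 else
      D.E (D.b k) (D.pos k) • D.wt k + D.γ k) (fun k hk l => by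
    simp only [hk, if_false, M]
    by_cases hb : D.b l = D.b k
    · have : IsWeightedHomogeneous D.W (D.Row (D.b k) (D.pos k) l)
        (D.E (D.b k) (D.pos k) • D.wt k) := by rw [← wt_eq hb, ← hb]; exact Row_WH l _
      refine Or.inr ⟨_, wne k _, ?_, by rw [γe hb]⟩
      split_ifs with c1
      · by_cases hb' : D.b l = D.b k0
        · exact absurd (pos_inj (hb.symm.trans hb') (by grind)) hk
        · simpa only [Pi.sub_apply, show D.Row (D.b k0) (D.pos k0) l = 0 by simp [Row, hb'], sub_zero, nsmul_eq_mul]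
      · exact this
    have e0 : D.Row (D.b k) (D.pos k) l = 0 := by simp [Row, hb]
    split_ifs with c1
    · by_cases hb' : D.b l = D.b k0
      · refine Or.inr ⟨_, wne l (D.pos k0), ?_, ?_⟩
        · rw [Pi.sub_apply, e0, zero_sub, ← hb']; exact (Row_WH l _).neg
        · rw [h0, ← hb', add_comm, γ_add hS, add_comm, show D.pos k = _ - 1 from
            Nat.eq_sub_of_add_eq c1.1, γ_add hS]
      · simp only [Pi.sub_apply, Row, hb, ↓ reduceIte, hb', sub_self, ne_eq, nsmul_eq_mul, true_or]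
    · exact Or.inl e0) (e := Pi.single k0 1 - Pi.single l0 ζ) (by
    rcases hy.2 with ⟨h, -⟩ | ⟨-, rfl, -⟩ <;> simp [*]) (fun j => by
    by_cases h : D.b j = D.b k0
    · exact Or.inr (by rw [W_v, wt_eq h, if_pos rfl])
    · simp [Pi.single_eq_of_ne (show j ≠ k0 by rintro rfl; exact h rfl),
        Pi.single_eq_of_ne (show j ≠ l0 by rintro rfl; exact h hy.1)]) (by
    convert dvd_PQ (P := fun _ => True) hS hy trivial trivial
    simp only [Pi.sub_apply, Pi.single_apply, C_sub, apply_ite (C (σ := σ) (R := ℂ)), C_1, C_0, sub_mul, ite_mul, one_mul, zero_mul, sum_sub_distrib, sum_ite_eq', mem_univ, ↓ reduceIte, fm]) hF hx hn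
  refine ⟨n, h2, fun j => ?_⟩
  obtain ⟨a1, a2⟩ := arith hS j
  have a3 := sum_blk (D := D) j fun _ _ => 1
  have a4 := sum_blk (D := D) j fun B _ => D.E B (D.n B - 1)
  have a5 : ∑ k, D.γ k j + ∑ k, D.h k * D.wt k j = Fintype.card ι * D.ν j := by
    rw [← sum_add_distrib]
    exact (sum_congr rfl fun k _ => congrFun (γ_add hS k) j).trans (by simp only [sum_const, card_univ, smul_eq_mul])
  have a6 := congrFun (γ_add hS k0) j
  have a7 := h3 j
  rw [← add_sum_erase _ (fun k => ite _ _ _) (mem_univ k0),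
    sum_congr rfl fun k hk => if_neg (mem_erase.1 hk).1] at a7
  have a8 := add_sum_erase _ (fun k => D.E (D.b k) (D.pos k) * D.wt k j + D.γ k j) (mem_univ k0)
  simp only [if_true, Pi.add_apply, Finset.sum_apply, W_v, Pi.smul_apply, smul_eq_mul, one_mul,
    sum_const, card_range, mul_one] at a3 a4 a6 a7
  rw [sum_add_distrib (s := univ), a1, h0] at a8
  unfold h at a2 a5 a6
  linarith only [a2, a5, a6, a8, a3, a4, a7]

end Dat

end Pool.Agent.H76m

/-! Lower bounds for the degrees in the symbolic power, and the socle step. -/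

namespace Pool.Agent.H76m

open Ideal MvPolynomial Finset

theorem exists_root {m : ℕ} (h : 2 ≤ m) : ∃ ω : ℂ, ω ≠ 1 ∧ ω ^ m = 1 :=
  have := Complex.isPrimitiveRoot_exp m (by omega)
  ⟨_, this.ne_one h, this.pow_eq_one⟩

namespace Dat

variable {σ ι β : Type} {D : Dat σ ι β} [Fintype ι] [LinearOrder ι]
  {i k l k' l' : ι} {ζ ζ' : ℂ} {F : MvPolynomial σ ℂ} {w : ι → ℕ}

theorem ν_pos (hS : D.Std) (i : ι) : 0 < D.ν i := by
  have h := Nat.mul_pos (Nat.zero_lt_of_lt (pos_lt (D := D) i)) (D.h i).add_one_pos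
  rw [← (arith hS i).2] at h
  omega

theorem LB (hS : D.Std) (i : ι) (hF : IsWeightedHomogeneous D.W F w) (h0 : F ≠ 0) {n : ℕ}
    (hJ : F ∈ Js D.Fm n) : ∃ a k, D.Q ^ a ∣ F ∧ (n - a) • D.γ k ≤ w := by
  classical
  have ex : ∃ a, ¬ D.Q ^ (a + 1) ∣ F := ⟨w i, fun h => by
    have := le_of_dvd ((PQ_WH hS).pow _) (WS_of hF) h0 h i
    have h1 := ν_pos hS i
    simp only [Pi.smul_apply, smul_eq_mul, ν] at this h1
    nlinarith⟩
  obtain ⟨a, h1, h2⟩ : ∃ a, D.Q ^ a ∣ F ∧ ¬ D.Q ^ (a + 1) ∣ F := by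
    refine ⟨_, ?_, Nat.find_spec ex⟩
    rcases h : Nat.find ex with _ | a
    · simp
    · exact not_not.1 (Nat.find_min ex (by omega))
  obtain ⟨k, l, ζ, hy, h3⟩ : ∃ k l ζ, D.Hyp k l ζ ∧ ¬ D.fm k l ζ ^ (a + 1) ∣ F := by
    by_contra hn
    push Not at hn
    exact h2 (PQ_dvd hS fun k l ζ h _ _ => hn k l ζ h)
  refine ⟨a, k, h1, ?_⟩
  obtain ⟨q, e, h4, rfl, rfl⟩ := DIVH ((fm_WH hy.1).pow a) hF h0
    ((pow_dvd_pow_of_dvd (dvd_PQ hS hy trivial trivial) a).trans h1)
  obtain ⟨hα, π, p1, p2, p3⟩ := hy.pk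
  have q0 : π q ≠ 0 := fun h => h3 (pow_succ (D.fm k l ζ) a ▸ mul_dvd_mul_left _ ((p1 q).1 h))
  have qW : π q ∈ WS D.W (a • D.wt k + e) := WS_mono (WS_hom (fun s => by
    by_cases hs : s = D.v k
    · rw [hs, p2, W_v, ← wt_eq hy.1]; exact WS_of ((x_WH l).C_mul ζ)
    · rw [p3 s hs]; exact WS_of (isWeightedHomogeneous_X _ _ _)) (WS_of h4)) le_add_self
  have key : ∀ b ∈ D.Fm, π b ≠ 0 → π b ^ (n - a) ∣ π q := fun b hb h => by
    have h5 : ¬ D.fm k l ζ ∣ b := mt (p1 b).2 h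
    obtain ⟨u, v, rfl⟩ := restr hα h5 (mem_Js.1 hJ _ ⟨k, l, ζ, hy, rfl⟩ b hb fun h => h5 h.dvd)
    simp only [map_add, map_mul, (p1 _).2 dvd_rfl, zero_mul, map_pow, zero_add, dvd_mul_right]
  have h5 : D.gt k ^ (n - a) ∣ π q := PQ_dvd hS fun k' l' ζ' h _ hP => by
    have : π (D.fm k' l' ζ') = D.fm k' l' ζ' := by
      simp [fm, p3 _ (D.hv.ne hP.1), p3 _ (D.hv.ne hP.2)]
    rw [← this]
    exact key _ ⟨_, _, _, h, rfl⟩ (this.symm ▸ h.pk.1.ne_zero)
  unfold γ
  split_ifs with hf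
  · rw [zero_add]; exact le_of_dvd ((PQ_WH hS).pow _) qW q0 h5
  obtain ⟨hk, hz⟩ := hy.2.resolve_right fun h => hf h.2.2
  obtain ⟨ω, w1, w2⟩ := exists_root (two_le hS hf).1
  have h6 : π (D.fm k l (ζ * ω)) = C (ζ - ζ * ω) * D.x l := by
    simp [fm, p2, p3 _ (D.hv.ne hk.symm), sub_mul]
  have h7 := assocC (σ := σ) (c := ζ - ζ * ω)
    (sub_ne_zero.2 fun h => w1 (mul_left_cancel₀ (hy.ne hS hk) (by rw [← h, mul_one]))) (D.x l)
  have h8 := key (D.fm k l (ζ * ω)) ⟨_, _, _, ⟨hy.1, Or.inl ⟨hk, by rw [mul_pow, hz, w2, one_mul]⟩⟩,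
    rfl⟩ (h6 ▸ h7.ne_zero_iff.2 (X_ne_zero _))
  rw [h6, (h7.pow_pow (n := n - a)).dvd_iff_dvd_left] at h8
  refine le_of_dvd (((wt_eq hy.1 ▸ x_WH l).mul (PQ_WH hS)).pow _) qW q0 ?_
  rw [mul_pow]
  refine (IsRelPrime.pow (X_prime.irreducible.isRelPrime_iff_not_dvd.2 fun hd => ?_)).mul_dvd h8 h5
  obtain ⟨-, π', p4, -⟩ := PK1 (s := D.v l) (h := (0 : MvPolynomial σ ℂ)) (zero_mem _)
  obtain ⟨k', l', η, h9, -, -, h10⟩ := PQ_zero hS π'.toRingHom ((p4 _).2 (by simpa only [sub_zero, ne_eq] using hd))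
  have h11 := ev_dvd (k := l) (l := l) (ζ := 0) (by simpa only [fm, C_0, zero_mul, sub_zero] using (p4 _).1 h10)
  rcases h9.2 with ⟨c1, -⟩ | ⟨rfl, rfl, c1⟩
  · by_cases c2 : k' = l
    · subst c2
      simpa [c1, (h9.ne hS c1).symm] using h11 (Pi.single l' 1) (by simp [c1])
    · simpa [c1.symm] using h11 (Pi.single k' 1) (by simp [Ne.symm c2])
  · simpa using h11 (Pi.single k' 1) (by
      simp [show l ≠ k' by rintro rfl; exact hf (hy.1 ▸ c1)])

theorem EQ (hS : D.Std) {s : ℕ} (hF : IsWeightedHomogeneous D.W F 0) (h0 : F ≠ 0)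
    (hJ : D.Q ^ s * F ∈ Js D.Fm (2 * s + 1)) (h : D.Hyp k l ζ) (h' : D.Hyp k' l' ζ') (o : l ≤ k)
    (o' : l' ≤ k') (hn : ¬ (k = k' ∧ l = l' ∧ ζ = ζ')) (pt : ι → ℂ) (e : pt k = ζ * pt l)
    (e' : pt k' = ζ' * pt l') (H : s = 0 ∨ ∀ a b η, D.Hyp a b η → b ≤ a → pt a = η * pt b →
      a = k ∧ b = l ∧ η = ζ ∨ a = k' ∧ b = l' ∧ η = ζ') : False := by
  classical
  obtain ⟨a, ha⟩ : ∃ a, eval a F ≠ 0 := by
    by_contra hn
    push Not at hn
    exact h0 (MvPolynomial.funext (by simpa only [map_zero] using hn))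
  let φ := eval (Function.extend D.v pt a)
  have h1 : φ F = eval a F := hom_congr_vars (by ext; simp [φ]) (fun s hs _ => by
    obtain ⟨d, h1, h2⟩ := (mem_vars _).1 hs
    simp only [φ, eval_X]
    refine Function.extend_apply' _ _ _ ?_
    rintro ⟨i, rfl⟩
    have := Finsupp.le_weight_of_ne_zero' D.W (Finsupp.mem_support_iff.1 h2) i
    simp [hF (mem_support_iff.1 h1), W_v, wt] at this) rfl
  obtain ⟨q, h2, h3⟩ : ∃ q, D.Q = D.fm k l ζ * (D.fm k' l' ζ' * q) ∧ φ q ^ s ≠ 0 := by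
    simp only [Q, PQ, U]
    rw [← prod_sigma (f := fun s : (Σ _ : ι × ι, ℂ) => D.fm s.1.1 s.1.2 s.2),
      ← mul_prod_erase _ _ (a := ⟨(k, l), ζ⟩) (by simp only [and_true, mem_sigma, mem_filter, mem_univ, o, and_self, mem_Z hS, h]),
      ← mul_prod_erase _ _ (a := ⟨(k', l'), ζ'⟩) (by simp only [and_true, mem_erase, ne_eq, Sigma.mk.injEq, Prod.mk.injEq, heq_eq_eq, not_and, and_imp, mem_sigma, mem_filter, mem_univ, o', and_self, mem_Z hS, h']; tauto)]
    refine ⟨_, rfl, H.elim (fun h => by simp only [and_true, map_prod, h, pow_zero, ne_eq, one_ne_zero, not_false_eq_true]) fun H => pow_ne_zero _ ?_⟩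
    rw [map_prod, prod_ne_zero_iff]
    rintro ⟨⟨a, b⟩, η⟩ h1 h2
    simp only [and_true, mem_erase, ne_eq, Sigma.mk.injEq, Prod.mk.injEq, heq_eq_eq, not_and, and_imp, mem_sigma, mem_filter, mem_univ, true_and, mem_Z hS] at h1
    rw [ev_fm, sub_eq_zero] at h2
    have := H a b η h1.2.2.2 h1.2.2.1 h2
    tauto
  have h4 : ¬ D.fm k l ζ ∣ D.fm k' l' ζ' := fun hd => hn (NA hS h h' o o' hd)
  have h5 := mem_Js.1 hJ _ ⟨_, _, _, h, rfl⟩ _ ⟨_, _, _, h', rfl⟩ fun h => h4 h.dvd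
  rw [h2, mul_pow, mul_assoc] at h5
  obtain ⟨u, v, h6⟩ := restr h.pk.1 h4 h5
  rw [show 2 * s + 1 - s = s + 1 by omega] at h6
  have h7 := (h.pk.1.dvd_or_dvd (a := D.fm k' l' ζ' ^ s) (b := q ^ s * F - D.fm k' l' ζ' * v)
    ⟨u, by linear_combination h6⟩).resolve_left fun hd => h4 (h.pk.1.dvd_of_dvd_pow hd)
  have := map_dvd φ h7
  rw [ev_fm, map_sub, map_mul, map_mul, ev_fm, h1, e, e', map_pow] at this
  simp [h3, ha] at this

omit [Fintype ι] [LinearOrder ι] in
theorem natpt (hS : D.Std) (h : D.Hyp k l ζ) {a b : ℕ} (e : (a : ℂ) = ζ * b) :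
    k = l ∧ ζ = 0 ∧ a = 0 ∧ D.fl (D.b k) ∨
      k ≠ l ∧ a = b ∧ (b = 0 ∨ ζ = 1) ∧ ζ ^ D.m (D.b k) = 1 := by
  rcases h.2 with ⟨h1, h2⟩ | ⟨h1, rfl, h2⟩
  · have : a ^ D.m (D.b k) = b ^ D.m (D.b k) := by
      have := congrArg (· ^ D.m (D.b k)) e
      simp only [mul_pow, h2, one_mul] at this
      exact_mod_cast this
    obtain rfl := Nat.pow_left_injective (hS k).1.ne' this
    refine Or.inr ⟨h1, rfl, or_iff_not_imp_left.2 fun h0 => ?_, h2⟩
    exact (mul_left_eq_self₀.1 e.symm).resolve_right (by simpa)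
  · exact Or.inl ⟨h1, rfl, by simpa using e, h2⟩

theorem SOC [Finite σ] (hS : D.Std) {s : ℕ}
    (hE : s = 1 → ∀ i, ¬ D.fl (D.b i) → 3 ≤ D.n (D.b i) → D.m (D.b i) ≤ 2)
    (hF : IsWeightedHomogeneous D.W F w) (hJ : F ∈ Js D.Fm (2 * s + 1))
    (hx : ∀ i, D.x i * F ∈ D.gI ^ (s + 1)) : F ∈ D.gI ^ (s + 1) := by
  by_contra hn
  have h0 : F ≠ 0 := by rintro rfl; exact hn (zero_mem _)
  rcases isEmpty_or_nonempty ι with hι | ⟨⟨i⟩⟩
  · rw [(eq_top_iff_one D.gI).2 (subset_span (Or.inl (by simp only [Fm, IsEmpty.exists_iff, Set.ofPred_false, Set.mem_empty_iff_false, IsEmpty.forall_iff, implies_true]))), top_pow] at hn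
    exact hn trivial
  obtain ⟨n, u1, u2⟩ := UB hS i (fun l => (γ_add hS l ▸ le_self_add : D.γ l ≤ D.ν)) hF hx hn
  replace u2 : ∀ j, w j ≤ s * D.ν j := fun j => by have := u2 j; nlinarith
  obtain ⟨a, k, l1, l2⟩ := LB hS i hF h0 hJ
  have l3 : ∀ j, a * D.ν j ≤ w j := le_of_dvd ((PQ_WH hS).pow _) (WS_of hF) h0 l1
  have l4 : a ≤ s := Nat.le_of_mul_le_mul_right ((l3 i).trans (u2 i)) (ν_pos hS i)
  have hb : ∀ j, D.b j = D.b k := fun j => by
    by_contra h
    have h1 : D.γ k j = D.ν j := by simpa only [nsmul_eq_mul, Pi.add_apply, Pi.mul_apply, Pi.natCast_apply, Nat.cast_id, wt, Ne.symm h, ↓ reduceIte, mul_zero, add_zero] using congrFun (γ_add hS k) j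
    have h2 : (2 * s + 1 - a) * D.γ k j ≤ w j := l2 j
    have := Nat.le_of_mul_le_mul_right ((h1 ▸ h2 :).trans (u2 j)) (ν_pos hS j)
    omega
  have hρ : D.n (D.b k) = Fintype.card ι := by simp only [Dat.n, blk, hb, filter_true, card_univ]
  obtain ⟨n, u1, u3⟩ := UB hS i (Mx := D.γ k) (fun l => le_of_eq <| add_right_cancel
    ((γ_add hS l).trans (by rw [← γ_add hS k, wt_eq (hb l), Dat.h, Dat.h, hb l]))) hF hx hn
  have a1 := (arith hS k).2
  have a2 : D.γ k k + D.h k = D.ν k := by simpa only [nsmul_eq_mul, Pi.add_apply, Pi.mul_apply, Pi.natCast_apply, Nat.cast_id, wt, ↓ reduceIte, mul_one] using congrFun (γ_add hS k) k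
  have a3 : 0 < D.h k := E_pos hS _ _
  have a4 := u3 k
  have a5 : (2 * s + 1 - a) * D.γ k k ≤ w k := l2 k
  have a6 := l3 k
  have a7 := pos_lt (D := D) k
  rw [hρ] at a1 a7
  obtain rfl : a = s := by
    by_contra h
    have := (Nat.mul_le_mul_right (D.γ k k) (show s + 2 ≤ _ by omega)).trans a5
    nlinarith only [u1, a1, a2, a4, a7, this]
  obtain rfl : n = 0 := by nlinarith only [a2, a3, a4, a6, u1]
  obtain ⟨q, e, h1, rfl, h2⟩ := DIVH ((PQ_WH hS).pow _) hF h0 l1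
  obtain rfl : e = 0 := funext fun j => by
    have := u2 j
    simpa only [Pi.zero_apply, h2, nsmul_eq_mul, Pi.add_apply, Pi.mul_apply, Pi.natCast_apply, Nat.cast_id, add_le_iff_nonpos_right, nonpos_iff_eq_zero] using this
  have q0 := right_ne_zero_of_mul h0
  have inj : ∀ {k l}, D.pos k = D.pos l ↔ k = l :=
    ⟨pos_inj ((hb _).trans (hb _).symm), congrArg _⟩
  have le : ∀ {k l}, k ≤ l ↔ D.pos k ≤ D.pos l := fun {k l} => ⟨fun h => h.eq_or_lt.elim
    (fun h => h ▸ le_rfl) fun h => (pos_mono ((hb _).trans (hb _).symm) h).le,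
    fun h => not_lt.1 fun h' => (pos_mono ((hb _).trans (hb _).symm) h').not_ge h⟩
  have H1 : ∀ {a b} {η : ℂ}, D.pos a ≠ D.pos b → η ^ D.m (D.b k) = 1 → D.Hyp a b η :=
    fun h h' => ⟨(hb _).trans (hb _).symm, Or.inl ⟨mt inj.2 h, hb _ ▸ h'⟩⟩
  have H2 : ∀ a, D.fl (D.b k) → D.Hyp a a 0 := fun a h => ⟨rfl, Or.inr ⟨rfl, rfl, hb _ ▸ h⟩⟩
  obtain ⟨k0, -, p0⟩ := pos_surj (D := D) (B := D.b k) (t := 0) (by omega)
  obtain ⟨k1, -, p1⟩ := pos_surj (D := D) (B := D.b k) (t := 1) (by omega)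
  rcases a.eq_zero_or_pos with ha | ha
  · by_cases hf : D.fl (D.b k)
    · exact EQ hS h1 q0 hJ (H2 k0 hf) (H2 k1 hf) le_rfl le_rfl (by simp [← inj, *]) 0 (by simp) (by simp)
        (Or.inl ha)
    · obtain ⟨ω, w1, w2⟩ := exists_root (two_le hS hf).1
      exact EQ (k := k1) (l := k0) (k' := k1) (l' := k0) hS h1 q0 hJ (H1 (by omega) w2)
        (H1 (by omega) (one_pow _)) (le.2 (by omega)) (le.2 (by omega)) (by simp [w1]) 0 (by simp)
        (by simp) (Or.inl ha)
  obtain ⟨k2, -, p2⟩ := pos_surj (D := D) (B := D.b k) (t := 2) (by omega)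
  by_cases hf : D.fl (D.b k)
  · refine EQ (k' := k2) (l' := k1) hS h1 q0 hJ (H2 k0 hf) (H1 (by omega) (one_pow _)) le_rfl
      (le.2 (by omega)) (by simp) (fun j => ((if D.pos j = 2 then 1 else D.pos j : ℕ) : ℂ)) (by simp [*])
      (by simp [*]) (Or.inr fun a b η h o e => ?_)
    have := natpt hS h e
    simp only [← inj, le, ne_eq] at this o ⊢
    grind
  by_cases h4 : 4 ≤ Fintype.card ι
  · obtain ⟨k3, -, p3⟩ := pos_surj (D := D) (B := D.b k) (t := 3) (by omega)
    refine EQ (k := k1) (l := k0) (k' := k3) (l' := k2) hS h1 q0 hJ (H1 (by omega) (one_pow _))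
      (H1 (by omega) (one_pow _)) (le.2 (by omega)) (le.2 (by omega)) (by simp [← inj, *])
      (fun j => ((if D.pos j < 4 then D.pos j / 2 + 1 else D.pos j : ℕ) : ℂ)) (by simp [*])
      (by simp [*]) (Or.inr fun a b η h o e => ?_)
    have := natpt hS h e
    simp only [← inj, le, ne_eq, hb a, hf] at this o ⊢
    grind
  · have hm : D.m (D.b k) = 2 := le_antisymm (hE (by omega) k hf (by omega)) (two_le hS hf).1
    refine EQ (k := k1) (l := k0) (k' := k1) (l' := k0) (ζ' := -1) hS h1 q0 hJ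
      (H1 (by omega) (one_pow _)) (H1 (by omega) (by simp only [hm, even_two, Even.neg_pow, one_pow])) (le.2 (by omega)) (le.2 (by omega)) (by norm_num)
      (fun j => ((if D.pos j < 2 then 0 else D.pos j : ℕ) : ℂ)) (by simp [*])
      (by simp [*]) (Or.inr fun a b η h o e => ?_)
    have := natpt hS h e
    simp only [← inj, le, ne_eq, hb a, hf, hm, sq_eq_one_iff] at this o ⊢
    grind

end Dat

end Pool.Agent.H76m

/-! Localisation at a point and the induction on the rank. -/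

namespace Pool.Agent.H76m

open Ideal MvPolynomial Finset

theorem Js_map {R : Type*} [CommRing R] [IsDomain R] {A A' : Set R} (Φ : R ≃+* R)
    (h : ∀ α ∈ A', ∃ β ∈ A, Associated (Φ α) β) {n : ℕ} {F : R} (hF : F ∈ Js A n) :
    Φ.symm F ∈ Js A' n := by
  refine mem_Js.2 fun α hα α' hα' hn => ?_
  obtain ⟨β, h1, h2⟩ := h α hα
  obtain ⟨β', h3, h4⟩ := h α' hα'
  have := mem_Js.1 hF β h1 β' h3 fun e => hn (by
    simpa only [RingEquiv.symm_apply_apply] using (h2.trans (e.trans h4.symm)).map Φ.symm)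
  rwa [symm_apply_mem_of_equiv_iff, Ideal.map_pow, map_span, Set.image_pair, span_insert,
    span_singleton_eq_span_singleton.2 h2, span_singleton_eq_span_singleton.2 h4, ← span_insert]

theorem AUT {σ ι : Type} {v : ι → σ} (hv : v.Injective) (P : ι → Prop) [DecidablePred P]
    (c d : ι → ℂ) (rep : ι → ι) (h : ∀ i, P i → c i ≠ 0 ∧ ¬ P (rep i)) :
    ∃ Φ : MvPolynomial σ ℂ ≃ₐ[ℂ] MvPolynomial σ ℂ, ∀ i, Φ (X (v i)) =
      if P i then C (c i) * X (v i) - C (d i) * X (v (rep i)) else X (v i) := by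
  refine ⟨AlgEquiv.ofAlgHom (aeval (Function.extend v (fun i =>
    if P i then C (c i) * X (v i) - C (d i) * X (v (rep i)) else X (v i)) X))
    (aeval (Function.extend v (fun i =>
      if P i then C (c i)⁻¹ * (X (v i) + C (d i) * X (v (rep i))) else X (v i)) X)) ?_ ?_,
    fun i => by simp only [aeval_eq_bind₁, AlgEquiv.ofAlgHom_apply, bind₁_X_right, hv.extend_apply]⟩
  all_goals
    ext1 s
    by_cases hs : ∃ i, v i = s
    · obtain ⟨i, rfl⟩ := hs
      by_cases hi : P i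
      · simp only [aeval_eq_bind₁, AlgHom.coe_comp, Function.comp_apply, bind₁_X_right, hv.extend_apply, hi, ↓ reduceIte, map_mul, algHom_C, algebraMap_eq, map_add, (h i hi).2, sub_add_cancel, AlgHom.coe_id, id_eq, map_sub]
        rw [← mul_assoc, ← map_mul]
        simp [(h i hi).1]
      · simp only [aeval_eq_bind₁, AlgHom.coe_comp, Function.comp_apply, bind₁_X_right, hv.extend_apply, hi, ↓ reduceIte, AlgHom.coe_id, id_eq]
    · simp only [aeval_eq_bind₁, AlgHom.coe_comp, Function.comp_apply, bind₁_X_right, Function.extend_apply' _ _ _ hs, AlgHom.coe_id, id_eq]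

namespace Dat

variable {σ ι β : Type} {D : Dat σ ι β}

theorem LOC (hS : D.Std) (a : ι → ℂ) : ∃ (act : ι → Prop) (D' : Dat σ {i // act i} (β × ℂ))
    (Φ : MvPolynomial σ ℂ ≃ₐ[ℂ] MvPolynomial σ ℂ), D'.Std ∧ (∀ i, a i ≠ 0 → ∃ j, ¬ act j) ∧
    (∀ i, ¬ D'.fl (D'.b i) → ¬ D.fl (D.b i) ∧ D'.m (D'.b i) = D.m (D.b i)) ∧
    (∀ i j, D'.b i = D'.b j → D.b i = D.b j) ∧ (∀ i, a i.1 = 0 → Φ (D'.ε i) = D.ε i) ∧
    (∀ k l ζ, D'.Hyp k l ζ → ∃ k' l' ζ', D.Hyp k' l' ζ' ∧ a k' = ζ' * a l' ∧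
      Associated (Φ (D'.fm k l ζ)) (D.fm k' l' ζ')) ∧
    ∀ k l ζ, D.Hyp k l ζ → a k = ζ * a l → ∃ k' l' ζ', D'.Hyp k' l' ζ' ∧ (k'.1 = k ∨ k'.1 = l) ∧
      (l'.1 = k ∨ l'.1 = l) ∧ Associated (Φ (D'.fm k' l' ζ')) (D.fm k l ζ) := by
  classical
  let lab := fun i => (D.b i, a i ^ D.m (D.b i))
  obtain ⟨rep, b1, b2⟩ := exists_rep lab
  have z1 : ∀ i, a i ^ D.m (D.b i) = 0 ↔ a i = 0 := fun i => pow_eq_zero_iff (hS i).1.ne'
  have z2 : ∀ {i j}, lab i = lab j → D.b i = D.b j ∧ (a i = 0 ↔ a j = 0) := fun h =>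
    ⟨congrArg Prod.fst h, by rw [← z1, ← z1, (Prod.mk.inj h).2]⟩
  have z3 : ∀ {i j}, D.b i = D.b j → a i = 0 → a j = 0 → lab i = lab j := fun h h1 h2 => by
    simp only [lab, h, h1, h2]
  have b3 : ∀ i, rep (rep i) = rep i := fun i => b2 _ _ (b1 i)
  obtain ⟨Φ, hΦ⟩ := AUT D.hv (fun i => a i ≠ 0 ∧ rep i ≠ i) (fun i => (a i)⁻¹)
    (fun i => (a (rep i))⁻¹) rep fun i h => ⟨inv_ne_zero h.1, fun h => h.2 (b3 i)⟩
  have p0 : ∀ {i}, a i = 0 → Φ (D.x i) = D.x i := fun h => by simp [hΦ, h]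
  have p1 : ∀ {k l ζ}, a k ≠ 0 → a l ≠ 0 → a k = ζ * a l →
      Associated (C (a k)⁻¹ * D.x k - C (a l)⁻¹ * D.x l) (D.fm k l ζ) := fun {k l ζ} h1 h2 h3 => by
    convert assocC (inv_ne_zero h1) _ using 1
    rw [fm, mul_sub, ← mul_assoc, ← map_mul, show (a k)⁻¹ * ζ = (a l)⁻¹ by field_simp; rw [h3]]
  have p2 : ∀ {k l}, lab l = lab k → k ≠ l → a k ≠ 0 → D.Hyp k l (a k / a l) := fun h h1 h2 =>
    ⟨(z2 h).1, Or.inl ⟨h1, by
      rw [div_pow, ← (Prod.mk.inj h).2, ← (z2 h).1,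
        div_self (mt (z1 _).1 (mt (z2 h).2.1 h2))]⟩⟩
  let act := fun i => a i = 0 ∧ (D.fl (D.b i) ∨ ∃ j ≠ i, D.b j = D.b i ∧ a j = 0) ∨
    a i ≠ 0 ∧ rep i ≠ i
  let D' : Dat σ {i // act i} (β × ℂ) := ⟨fun i => D.v i, D.hv.comp Subtype.val_injective,
    fun i => lab i, fun B => if B.2 = 0 then D.m B.1 else 1, fun B => B.2 ≠ 0 ∨ D.fl B.1⟩
  have f1 : ∀ i, D'.fl (D'.b i) ↔ a i ≠ 0 ∨ D.fl (D.b i) := fun i => by simp only [D', lab, Ne, z1]
  have f2 : ∀ i, D'.m (D'.b i) = if a i = 0 then D.m (D.b i) else 1 := fun i => by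
    simp only [D', lab, z1]
  have f3 : ∀ k l ζ, Φ (D'.fm k l ζ) = Φ (D.x k) - C ζ * Φ (D.x l) := fun k l ζ => by
    rw [fm, map_sub, map_mul, show Φ (C ζ) = C ζ from Φ.commutes ζ]
  refine ⟨act, D', Φ, fun i => ⟨?_, fun h => ?_⟩, fun i h => ⟨rep i, ?_⟩, fun i h => ?_,
    fun i j h => (z2 h).1, fun i h => ?_, fun k l ζ h => ?_, fun k l ζ h e => ?_⟩
  · rw [f2]; split_ifs; exacts [(hS _).1, one_pos]
  · rw [f1, not_or, not_not] at h
    obtain ⟨j, h1, h2, h3⟩ := (i.2.resolve_right fun h' => h'.1 h.1).2.resolve_left h.2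
    rw [f2, if_pos h.1]
    exact ⟨((hS _).2 h.2).1, ⟨j, Or.inl ⟨h3, Or.inr ⟨i, h1.symm, h2.symm, h.1⟩⟩⟩,
      fun e => h1 (congrArg Subtype.val e), z3 h2 h3 h.1⟩
  · simp only [act, ne_eq, (z2 (b1 i)).2, h, false_and, not_false_eq_true, b3, not_true_eq_false, and_false, or_self]
  · rw [f1, not_or, not_not] at h
    exact ⟨h.2, by rw [f2, if_pos h.1]⟩
  · simp only [ε, f1, h, ne_eq, not_true, false_or]
    split_ifs
    exacts [map_one _, p0 h]
  · have hy := h.2
    rw [f1, f2] at hy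
    rw [f3]
    by_cases h0 : a k = 0
    · have h1 := (z2 h.1).2.2 h0
      refine ⟨k, l, ζ, ⟨(z2 h.1).1, ?_⟩, by simp [h0, h1], by rw [p0 h0, p0 h1]; rfl⟩
      simpa only [ne_eq, Subtype.ext_iff, h0, ↓ reduceIte, not_true_eq_false, false_or] using hy
    have h1 := mt (z2 h.1).2.1 h0
    have h2 := (k.2.resolve_left fun h => h0 h.1).2
    have h3 := (l.2.resolve_left fun h => h1 h.1).2
    have h4 := mt (z2 (b1 k)).2.1 h0
    rcases hy with ⟨h5, h6⟩ | ⟨rfl, rfl, -⟩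
    · obtain rfl : ζ = 1 := by simpa [h0] using h6
      refine ⟨k, l, _, p2 h.1 (fun e => h5 (Subtype.ext e)) h0, (div_mul_cancel₀ _ h1).symm, ?_⟩
      convert p1 h0 h1 (div_mul_cancel₀ _ h1).symm using 1
      simp only [hΦ, ne_eq, h0, not_false_eq_true, h2, and_self, ↓ reduceIte, C_1, h1, b2 _ _ h.1, show rep k ≠ l from b2 _ _ h.1 ▸ h3, one_mul, sub_sub_sub_cancel_right]
    · refine ⟨k, rep k, _, p2 (b1 k) h2.symm h0, (div_mul_cancel₀ _ h4).symm, ?_⟩
      convert p1 h0 h4 (div_mul_cancel₀ _ h4).symm using 1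
      simp only [hΦ, ne_eq, h0, not_false_eq_true, h2, and_self, ↓ reduceIte, C_0, zero_mul, sub_zero]
  by_cases h0 : a k = 0
  · rcases id h.2 with ⟨h1, h2⟩ | ⟨rfl, rfl, h2⟩
    · have h3 : a l = 0 := by simpa [h0, h.ne hS h1] using e
      refine ⟨⟨k, Or.inl ⟨h0, Or.inr ⟨l, h1.symm, h.1, h3⟩⟩⟩,
        ⟨l, Or.inl ⟨h3, Or.inr ⟨k, h1, h.1.symm, h0⟩⟩⟩, ζ, ⟨z3 h.1 h3 h0, Or.inl ⟨by simpa, ?_⟩⟩,
        by simp, by simp, by rw [f3, p0 h0, p0 h3]; rfl⟩
      rwa [f2, if_pos h0]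
    · exact ⟨⟨k, Or.inl ⟨h0, Or.inl h2⟩⟩, ⟨k, Or.inl ⟨h0, Or.inl h2⟩⟩, 0,
        ⟨rfl, Or.inr ⟨rfl, rfl, (f1 _).2 (Or.inr h2)⟩⟩, by simp, by simp, by rw [f3, p0 h0]; rfl⟩
  obtain ⟨h1, h2⟩ := h.2.resolve_right fun h => h0 (by simp [e, h.2.1])
  have h3 : a l ≠ 0 := fun h => h0 (by simp [e, h])
  have h4 : rep l = rep k := b2 _ _ (by simp only [lab, h.1, e, mul_pow, h2, one_mul])
  have h5 := p1 h0 h3 e
  by_cases c1 : rep k = k
  · have c2 : rep l ≠ l := by rw [h4, c1]; exact h1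
    refine ⟨⟨l, Or.inr ⟨h3, c2⟩⟩, ⟨l, Or.inr ⟨h3, c2⟩⟩, 0,
      ⟨rfl, Or.inr ⟨rfl, rfl, (f1 _).2 (Or.inl h3)⟩⟩, by simp, by simp, ?_⟩
    convert h5.neg_left using 1
    simp only [f3, hΦ, ne_eq, h3, not_false_eq_true, h4, c1, h1, and_self, ↓ reduceIte, C_0, zero_mul, sub_zero, neg_sub]
  by_cases c2 : rep l = l
  · refine ⟨⟨k, Or.inr ⟨h0, c1⟩⟩, ⟨k, Or.inr ⟨h0, c1⟩⟩, 0,
      ⟨rfl, Or.inr ⟨rfl, rfl, (f1 _).2 (Or.inl h0)⟩⟩, by simp, by simp, ?_⟩
    convert h5 using 1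
    simp only [f3, hΦ, ne_eq, h0, not_false_eq_true, ← h4, c2, Ne.symm h1, and_self, ↓ reduceIte, C_0, zero_mul, sub_zero]
  · refine ⟨⟨k, Or.inr ⟨h0, c1⟩⟩, ⟨l, Or.inr ⟨h3, c2⟩⟩, 1, ⟨?_, Or.inl ⟨by simpa, one_pow _⟩⟩,
      by simp, by simp, ?_⟩
    · exact (b1 l).symm.trans ((congrArg lab h4).trans (b1 k))
    · convert h5 using 1
      simp only [f3, hΦ, ne_eq, h0, not_false_eq_true, c1, and_self, ↓ reduceIte, C_1, h3, h4, h4 ▸ c2, one_mul, sub_sub_sub_cancel_right]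

def Ex [Fintype ι] (D : Dat σ ι β) (s : ℕ) : Prop :=
  s = 1 → ∀ i, ¬ D.fl (D.b i) → 3 ≤ D.n (D.b i) → D.m (D.b i) ≤ 2

theorem Ex.loc [Fintype ι] {s : ℕ} (h : D.Ex s) {act : ι → Prop} [Fintype {i // act i}] {β' : Type}
    {D' : Dat σ {i // act i} β'}
    (h1 : ∀ i, ¬ D'.fl (D'.b i) → ¬ D.fl (D.b i) ∧ D'.m (D'.b i) = D.m (D.b i))
    (h2 : ∀ i j, D'.b i = D'.b j → D.b i = D.b j) : D'.Ex s := fun hs i hi hn =>
  (h1 i hi).2 ▸ h hs i (h1 i hi).1 (hn.trans (card_le_card_of_injOn Subtype.val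
    (fun j hj => mem_blk.2 (h2 _ _ (mem_blk.1 hj))) Subtype.val_injective.injOn))

end Dat

open Dat

theorem MAIN {σ : Type} [Finite σ] (s N : ℕ) : ∀ {ι β : Type} [Fintype ι] [LinearOrder ι]
    (D : Dat σ ι β), Fintype.card ι = N → D.Std → D.Ex s →
    Js D.Fm (2 * s + 1) ≤ D.gI ^ (s + 1) := by
  classical
  induction N using Nat.strong_induction_on with | _ N ih => ?_
  intro ι β _ _ D hN hS hE F hF
  refine mem_of_comp (W := D.W) fun w => ?_
  replace hF : weightedHomogeneousComponent D.W w F ∈ Js D.Fm (2 * s + 1) :=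
    mem_Js.2 fun α hα γ hγ h => comp_mem (by
      rintro _ (rfl | rfl)
      exacts [let ⟨_, _, _, h, e⟩ := hα; ⟨_, e ▸ fm_WH h.1⟩,
        let ⟨_, _, _, h, e⟩ := hγ; ⟨_, e ▸ fm_WH h.1⟩]) _ (mem_Js.1 hF α hα γ hγ h) w
  have hH := weightedHomogeneousComponent_isWeightedHomogeneous (w := D.W) w F
  generalize weightedHomogeneousComponent D.W w F = F at hF hH
  have h1 : span (Set.range D.x) ≤ (Submodule.colon (D.gI ^ (s + 1)) {F}).radical := by
    rw [← vanishingIdeal_zeroLocus_eq_radical (K := ℂ), span_le]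
    rintro _ ⟨i, rfl⟩ pt hpt
    by_contra h0
    obtain ⟨act, D', Φ, l1, l2, l3, l4, l5, l6, l7⟩ := LOC hS (pt ∘ D.v)
    obtain ⟨j, hj⟩ := l2 i (by simpa using h0)
    have h2 := ih _ (hN ▸ Fintype.card_subtype_lt hj) D' rfl l1 (hE.loc l3 l4)
      (Js_map Φ.toRingEquiv (by
        rintro _ ⟨k, l, ζ, h, rfl⟩
        obtain ⟨k', l', ζ', h1, -, h2⟩ := l6 k l ζ h
        exact ⟨_, ⟨k', l', ζ', h1, rfl⟩, h2⟩) hF)
    rw [symm_apply_mem_of_equiv_iff, Ideal.map_pow] at h2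
    let s0 := ∏ j with pt (D.v j) ≠ 0, D.x j
    let s1 := ∏ k, ∏ l, ∏ ζ ∈ D.Z k l with pt (D.v k) ≠ ζ * pt (D.v l), D.fm k l ζ
    have key : ∀ {k l ζ h}, D.Hyp k l ζ → (∀ k' l' ζ', D'.Hyp k' l' ζ' → (k'.1 = k ∨ k'.1 = l) →
        (l'.1 = k ∨ l'.1 = l) → D'.fm k' l' ζ' ∣ h) → D.fm k l ζ ∣ s1 * Φ h := by
      intro k l ζ h hy H
      by_cases e : pt (D.v k) = ζ * pt (D.v l)
      · obtain ⟨k', l', ζ', h1, h2, h3, h4⟩ := l7 k l ζ hy e
        exact (h4.symm.dvd.trans (map_dvd Φ (H _ _ _ h1 h2 h3))).mul_left _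
      · refine Dvd.dvd.mul_right ?_ _
        refine dvd_trans ?_ (dvd_prod_of_mem _ (mem_univ k))
        refine dvd_trans ?_ (dvd_prod_of_mem _ (mem_univ l))
        exact dvd_prod_of_mem _ (mem_filter.2 ⟨(mem_Z hS).2 hy, e⟩)
    have h3 : span {s0 * s1} * D'.gI.map Φ.toRingEquiv ≤ D.gI := by
      rw [gI, map_span, span_mul_span, span_le]
      rintro _ ⟨_, rfl, _, ⟨f, hf | ⟨t, h, rfl, hf⟩, rfl⟩, rfl⟩
      · refine subset_span (Or.inl ?_)
        rintro _ ⟨k, l, ζ, hy, rfl⟩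
        change _ ∣ s0 * s1 * Φ f
        rw [mul_assoc]
        exact (key hy fun k' l' ζ' h _ _ => hf _ ⟨_, _, _, h, rfl⟩).mul_left _
      · obtain ⟨q, hq⟩ : D.ε t ∣ s0 * Φ (D'.ε t) := by
          by_cases e : pt (D.v t) = 0
          · rw [l5 t e]; exact dvd_mul_left _ _
          · refine (dvd_trans ?_ (dvd_prod_of_mem D.x (a := t.1) (by simpa only [ne_eq, mem_filter, mem_univ, true_and]))).mul_right _
            unfold ε; split_ifs <;> simp
        refine subset_span (Or.inr ⟨t, q * (s1 * Φ h), ?_, fun k l ζ hy c1 c2 =>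
          (key hy fun k' l' ζ' h e1 e2 => hf _ _ _ h ?_ ?_).mul_left _⟩)
        · change s0 * s1 * Φ _ = _
          rw [map_mul]; linear_combination s1 * Φ h * hq
        · rintro rfl; exact e1.elim c1.symm c2.symm
        · rintro rfl; exact e2.elim c1.symm c2.symm
    have h4 := hpt ((s0 * s1) ^ (s + 1)) (by
      rw [Submodule.mem_colon_singleton, smul_eq_mul]
      refine Ideal.pow_right_mono h3 (s + 1) ?_
      rw [mul_pow (span _)]
      exact mul_mem_mul (pow_mem_pow (mem_span_singleton_self _) _) h2)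
    simp only [s0, ne_eq, s1, fm, aeval_eq_eval, map_pow, map_mul, map_prod, eval_X, map_sub, eval_C, Nat.add_eq_zero_iff, one_ne_zero, and_false, not_false_eq_true, pow_eq_zero_iff, mul_eq_zero, prod_eq_zero_iff, mem_filter, mem_univ, true_and, not_and_self, exists_false, sub_eq_zero, false_or] at h4
    obtain ⟨_, _, _, ⟨-, h5⟩, h6⟩ := h4
    exact h5 h6
  obtain ⟨n, hn⟩ := exists_pow_le_of_le_radical_of_fg h1 (Submodule.fg_span (Set.finite_range _))
  replace hn : ∀ p ∈ span (Set.range D.x) ^ n, p * F ∈ D.gI ^ (s + 1) := fun p hp =>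
    Submodule.mem_colon_singleton.1 (hn hp)
  clear h1
  induction n generalizing F w with
  | zero => simpa using hn 1 (by simp)
  | succ n ih' =>
    refine SOC hS hE hH hF fun i => ih' _ _ (mul_mem_left _ _ hF) ((x_WH i).mul hH) fun p hp => ?_
    rw [← mul_assoc]
    exact hn _ (by rw [pow_succ]; exact mul_mem_mul hp (subset_span ⟨i, rfl⟩))

theorem TOP {σ ι β : Type} [Finite σ] [Fintype ι] [LinearOrder ι] (D : Dat σ ι β)
    (hm : ∀ i, 0 < D.m (D.b i)) {s : ℕ} (hE : D.Ex s) :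
    Js D.Fm (2 * s + 1) ≤ Js D.Fm 1 ^ (s + 1) := by
  classical
  intro F hF
  let D1 : Dat σ ι β := ⟨D.v, D.hv, D.b, D.m, fun B =>
    D.fl B ∨ D.m B = 1 ∨ ∀ i j, D.b i = B → D.b j = B → i = j⟩
  have hS : D1.Std := fun i => ⟨hm i, fun h => by
    simp only [D1, not_or, not_forall] at h ⊢
    obtain ⟨-, h1, j, k, h2, h3, h4⟩ := h
    have := hm i
    refine ⟨by omega, ?_⟩
    by_cases e : j = i
    exacts [⟨k, fun e' => h4 (e.trans e'.symm), h3⟩, ⟨j, e, h2⟩]⟩
  obtain ⟨act, D', Φ, l1, -, l3, l4, -, l6, l7⟩ :=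
    LOC hS fun i => if ¬ D.fl (D.b i) ∧ D1.fl (D.b i) then 1 else 0
  have h1 := MAIN s _ D' rfl l1 (hE.loc (fun i h => ⟨fun h' => (l3 i h).1 (Or.inl h'), (l3 i h).2⟩)
    l4) (Js_map Φ.toRingEquiv (by
      rintro _ ⟨k, l, ζ, h, rfl⟩
      obtain ⟨k', l', ζ', h1, h2, h3⟩ := l6 k l ζ h
      refine ⟨_, ⟨k', l', ζ', ⟨h1.1, h1.2.imp_right ?_⟩, rfl⟩, h3⟩
      rintro ⟨rfl, rfl, h4⟩
      exact ⟨rfl, rfl, by simpa [show D1.fl (D.b k') from h4] using h2⟩) hF)
  rw [symm_apply_mem_of_equiv_iff, Ideal.map_pow] at h1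
  refine Ideal.pow_right_mono (map_le_iff_le_comap.2 ((gI_le l1).trans fun f hf => ?_)) _ h1
  refine Js_map Φ.toRingEquiv.symm ?_ hf
  rintro _ ⟨k, l, ζ, h, rfl⟩
  obtain ⟨k', l', ζ', h1, -, -, h2⟩ := l7 k l ζ ⟨h.1, h.2.imp_right fun h =>
    ⟨h.1, h.2.1, Or.inl h.2.2⟩⟩ (by
    rw [h.1]
    split_ifs with c
    · obtain ⟨h1, h2⟩ := h.2.resolve_right fun h => c.1 h.2.2
      rcases c.2 with c' | c' | c'
      exacts [absurd c' c.1, by simpa [c', eq_comm] using h2, absurd (c' k l rfl h.1) h1]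
    · simp)
  exact ⟨_, ⟨k', l', ζ', h1, rfl⟩, by simpa [D1, fm] using h2.symm.map Φ.symm⟩

end Pool.Agent.H76m
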